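import Mathlib

namespace Pool.Agent.H174.CC

open Complex Filter Topology Metric MeasureTheory

/-- the integrand -/
noncomputable def J (n : ℕ) (q : ℂ) : ℂ := (16 + I / 4 * q) ^ n * I * Complex.exp ((q ^ 2)⁻¹)

/-- the direction of the path -/
noncomputable def dir : ℂ := 1 + 2 * I

lemma norm_exp_le {q : ℂ} (h : q.re ^ 2 ≤ q.im ^ 2) : ‖Complex.exp ((q ^ 2)⁻¹)‖ ≤ 1 := by
  rw [Complex.norm_exp, Complex.inv_re, Real.exp_le_one_iff]
  apply div_nonpos_of_nonpos_of_nonneg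
  · rw [pow_two, Complex.mul_re]; nlinarith
  · exact Complex.normSq_nonneg _

lemma J_diff (n : ℕ) : DifferentiableOn ℂ (J n) (ball I 1) := by
  intro q hq
  have hq0 : q ≠ 0 := by
    rintro rfl
    simp at hq
  have : q ^ 2 ≠ 0 := pow_ne_zero _ hq0
  apply DifferentiableAt.differentiableWithinAt
  unfold J
  fun_prop (disch := assumption)

lemma norm_J_le (n : ℕ) {q : ℂ} (h : q.re ^ 2 ≤ q.im ^ 2) (M : ℝ) (hM : ‖16 + I / 4 * q‖ ≤ M) :
    ‖J n q‖ ≤ M ^ n := by
  have hM0 : 0 ≤ M := (norm_nonneg _).trans hM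
  unfold J
  rw [norm_mul, norm_mul, norm_pow, Complex.norm_I, mul_one]
  calc ‖16 + I / 4 * q‖ ^ n * ‖Complex.exp ((q ^ 2)⁻¹)‖ ≤ M ^ n * 1 := by
        gcongr
        exact norm_exp_le h
    _ = _ := mul_one _

lemma line_integral (n : ℕ) (F : ℂ → ℂ) (hF : ∀ z ∈ ball I 1, HasDerivAt F (J n z) z)
    (p v : ℂ) (a b : ℝ) (h : ∀ t ∈ Set.uIcc a b, p + t * v ∈ ball I 1) :
    ∫ t in a..b, J n (p + t * v) * v = F (p + b * v) - F (p + a * v) := by
  have hd : ∀ t ∈ Set.uIcc a b, HasDerivAt (fun t : ℝ => F (p + t * v)) (J n (p + t * v) * v) t := by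
    intro t ht
    have h1 := hF _ (h t ht)
    have h2 : HasDerivAt (fun w : ℂ => p + w * v) v (t : ℂ) := by
      simpa using ((hasDerivAt_id (t : ℂ)).mul_const v).const_add p
    exact (HasDerivAt.comp (t : ℂ) h1 h2).comp_ofReal
  apply intervalIntegral.integral_eq_sub_of_hasDerivAt hd
  apply ContinuousOn.intervalIntegrable
  apply ContinuousOn.mul _ continuousOn_const
  apply (J_diff n).continuousOn.comp
  · fun_prop
  · intro t ht; exact h t ht

lemma mem_ball_I {q : ℂ} (h : q.re ^ 2 + q.im ^ 2 < 2 * q.im) : q ∈ ball I 1 := by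
  rw [mem_ball, dist_eq_norm]
  have : ‖q - I‖ ^ 2 < 1 := by
    rw [Complex.sq_norm, Complex.normSq_apply]
    simp
    nlinarith
  nlinarith [norm_nonneg (q - I)]

lemma vertical (n : ℕ) (δ : ℝ) (h0 : 0 < δ) (h1 : δ < 1 / 40) :
    (∫ r in (2 * δ)..(2 / 5 : ℝ), J n (0 + r * I) * I).re ≤
      -(1 / 20 * Real.exp (-400) * (639 / 40) ^ n) := by
  have hpos : ∀ r ∈ Set.uIcc (2 * δ) (2 / 5 : ℝ), 0 < r := by
    intro r hr
    rw [Set.uIcc_of_le (by linarith)] at hr
    linarith [hr.1]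
  have e1 : (∫ r in (2 * δ)..(2 / 5 : ℝ), J n (0 + r * I) * I) =
      ∫ r in (2 * δ)..(2 / 5 : ℝ), (((-((16 - r / 4) ^ n * Real.exp (-(r ^ 2)⁻¹)) : ℝ)) : ℂ) := by
    apply intervalIntegral.integral_congr
    intro r hr
    have hr0 : (r : ℂ) ≠ 0 := by exact_mod_cast (hpos r hr).ne'
    have a1 : (16 : ℂ) + I / 4 * (0 + r * I) = 16 - r / 4 := by
      linear_combination (r / 4 : ℂ) * I_sq
    have a2 : ((0 + r * I : ℂ) ^ 2)⁻¹ = -((r : ℂ) ^ 2)⁻¹ := by
      rw [zero_add, mul_pow, I_sq, mul_neg_one, inv_neg]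
    simp only [J]
    rw [a1, a2]
    push_cast
    linear_combination ((16 - r / 4 : ℂ) ^ n * Complex.exp (-((r : ℂ) ^ 2)⁻¹)) * I_sq
  rw [e1, intervalIntegral.integral_ofReal, Complex.ofReal_re, intervalIntegral.integral_neg,
    neg_le_neg_iff]
  have hcont : ContinuousOn (fun r : ℝ => (16 - r / 4) ^ n * Real.exp (-(r ^ 2)⁻¹))
      (Set.uIcc (2 * δ) (2 / 5 : ℝ)) := by
    intro r hr
    have : r ^ 2 ≠ 0 := pow_ne_zero _ (hpos r hr).ne'
    apply ContinuousAt.continuousWithinAt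
    fun_prop (disch := assumption)
  have hint := hcont.intervalIntegrable (μ := volume)
  have hint2 : IntervalIntegrable (fun r : ℝ => (16 - r / 4) ^ n * Real.exp (-(r ^ 2)⁻¹)) volume
      (1 / 20) (1 / 10) := by
    apply (hcont.mono _).intervalIntegrable
    rw [Set.uIcc_of_le (by norm_num), Set.uIcc_of_le (by linarith)]
    exact Set.Icc_subset_Icc (by linarith) (by norm_num)
  calc 1 / 20 * Real.exp (-400) * (639 / 40) ^ n
      = ∫ r in (1 / 20 : ℝ)..(1 / 10), (639 / 40) ^ n * Real.exp (-400) := by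
        rw [intervalIntegral.integral_const, smul_eq_mul]; ring
    _ ≤ ∫ r in (1 / 20 : ℝ)..(1 / 10), (16 - r / 4) ^ n * Real.exp (-(r ^ 2)⁻¹) := by
        apply intervalIntegral.integral_mono_on (by norm_num) (by simp) hint2
        intro r hr
        have hr0 : 0 < r := by linarith [hr.1]
        have b1 : (639 / 40 : ℝ) ≤ 16 - r / 4 := by linarith [hr.2]
        have b2 : (r ^ 2)⁻¹ ≤ 400 := by
          rw [inv_le_comm₀ (by positivity) (by norm_num)]
          nlinarith [hr.1]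
        have b3 : Real.exp (-400) ≤ Real.exp (-(r ^ 2)⁻¹) := Real.exp_le_exp.2 (by linarith)
        gcongr
    _ ≤ _ := by
        apply intervalIntegral.integral_mono_interval (by linarith) (by norm_num) (by norm_num) _
          hint
        filter_upwards [ae_restrict_mem measurableSet_Ioc] with r hr
        have : 0 ≤ 16 - r / 4 := by linarith [hr.2]
        simp only [Pi.zero_apply]
        positivity

lemma horizontal (n : ℕ) : ‖∫ s in (0 : ℝ)..(1 / 5), J n ((2 / 5) * I + s * 1) * 1‖ ≤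
    1 / 5 * (1591 / 100) ^ n := by
  have := intervalIntegral.norm_integral_le_of_norm_le_const (a := (0 : ℝ)) (b := 1 / 5)
    (f := fun s : ℝ => J n ((2 / 5) * I + s * 1) * 1) (C := (1591 / 100) ^ n) (by
      intro s hs
      rw [Set.uIoc_of_le (by norm_num)] at hs
      have hs0 := hs.1
      have hs1 := hs.2
      rw [mul_one]
      apply norm_J_le
      · simp
        nlinarith
      · have : ‖16 + I / 4 * (2 / 5 * I + (s : ℂ) * 1)‖ ^ 2 ≤ (1591 / 100) ^ 2 := by
          rw [Complex.sq_norm, Complex.normSq_apply]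
          simp
          nlinarith
        exact le_of_sq_le_sq this (by norm_num))
  calc _ ≤ _ := this
    _ = _ := by norm_num; ring

lemma short (n : ℕ) (δ : ℝ) (h0 : 0 < δ) (h1 : δ < 1 / 40) :
    ‖∫ s in (0 : ℝ)..δ, J n ((2 * δ) * I + s * 1) * 1‖ ≤ δ * 17 ^ n := by
  have := intervalIntegral.norm_integral_le_of_norm_le_const (a := (0 : ℝ)) (b := δ)
    (f := fun s : ℝ => J n ((2 * δ) * I + s * 1) * 1) (C := 17 ^ n) (by
      intro s hs
      rw [Set.uIoc_of_le h0.le] at hs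
      have hs0 := hs.1
      have hs1 := hs.2
      rw [mul_one]
      apply norm_J_le
      · simp
        nlinarith
      · have : ‖16 + I / 4 * (2 * δ * I + (s : ℂ) * 1)‖ ^ 2 ≤ 17 ^ 2 := by
          rw [Complex.sq_norm, Complex.normSq_apply]
          simp
          nlinarith
        exact le_of_sq_le_sq this (by norm_num))
  calc _ ≤ _ := this
    _ = _ := by rw [sub_zero, abs_of_pos h0]; ring

lemma norm_dir : ‖dir‖ ≤ 3 := by
  unfold dir
  calc ‖(1 : ℂ) + 2 * I‖ ≤ ‖(1 : ℂ)‖ + ‖2 * I‖ := norm_add_le _ _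
    _ = 3 := by simp; norm_num

lemma re_dir (ρ : ℝ) : ((ρ : ℂ) * dir).re = ρ := by simp [dir]
lemma im_dir (ρ : ℝ) : ((ρ : ℂ) * dir).im = 2 * ρ := by simp [dir]; ring

lemma norm_J_dir (n : ℕ) (ρ : ℝ) (h0 : 0 < ρ) (h1 : ρ ≤ 1 / 5) : ‖J n (ρ * dir)‖ ≤ 17 ^ n := by
  apply norm_J_le
  · rw [re_dir, im_dir]; nlinarith
  · have : ‖16 + I / 4 * (ρ * dir)‖ ^ 2 ≤ 17 ^ 2 := by
      rw [Complex.sq_norm, Complex.normSq_apply]
      simp [dir]
      nlinarith
    exact le_of_sq_le_sq this (by norm_num)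

lemma initial (n : ℕ) (δ : ℝ) (h0 : 0 < δ) (h1 : δ < 1 / 40) :
    ‖∫ ρ in (0 : ℝ)..δ, J n (ρ * dir) * dir‖ ≤ 3 * δ * 17 ^ n := by
  have := intervalIntegral.norm_integral_le_of_norm_le_const (a := (0 : ℝ)) (b := δ)
    (f := fun ρ : ℝ => J n (ρ * dir) * dir) (C := 17 ^ n * 3) (by
      intro s hs
      rw [Set.uIoc_of_le h0.le] at hs
      have hs0 := hs.1
      have hs1 := hs.2
      rw [norm_mul]
      gcongr
      · exact norm_J_dir n s hs0 (by linarith)
      · exact norm_dir)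
  calc _ ≤ _ := this
    _ = _ := by rw [sub_zero, abs_of_pos h0]; ring

lemma dir_continuousOn (n : ℕ) :
    ContinuousOn (fun ρ : ℝ => J n (ρ * dir) * dir) (Set.Ioc 0 (1 / 5)) := by
  apply ContinuousOn.mul _ continuousOn_const
  apply (J_diff n).continuousOn.comp
  · fun_prop
  · intro ρ hρ
    apply mem_ball_I
    rw [re_dir, im_dir]
    nlinarith [hρ.1, hρ.2]

lemma dir_intervalIntegrable (n : ℕ) :
    IntervalIntegrable (fun ρ : ℝ => J n (ρ * dir) * dir) volume 0 (1 / 5) := by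
  rw [intervalIntegrable_iff_integrableOn_Ioc_of_le (by norm_num)]
  apply Integrable.of_bound ((dir_continuousOn n).aestronglyMeasurable measurableSet_Ioc)
    (17 ^ n * 3)
  filter_upwards [ae_restrict_mem measurableSet_Ioc] with ρ hρ
  rw [norm_mul]
  gcongr
  · exact norm_J_dir n ρ hρ.1 hρ.2
  · exact norm_dir

lemma contour (n : ℕ) (δ : ℝ) (h0 : 0 < δ) (h1 : δ < 1 / 40) :
    (∫ ρ in (0 : ℝ)..(1 / 5), J n (ρ * dir) * dir).re ≤
      -(1 / 20 * Real.exp (-400) * (639 / 40) ^ n) + 1 / 5 * (1591 / 100) ^ n +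
        4 * δ * 17 ^ n := by
  obtain ⟨F, hF⟩ := (J_diff n).isExactOn_ball
  have hii := dir_intervalIntegrable n
  have hs1 : IntervalIntegrable (fun ρ : ℝ => J n (ρ * dir) * dir) volume 0 δ := by
    apply hii.mono_set
    rw [Set.uIcc_of_le h0.le, Set.uIcc_of_le (by norm_num)]
    exact Set.Icc_subset_Icc le_rfl (by linarith)
  have hs2 : IntervalIntegrable (fun ρ : ℝ => J n (ρ * dir) * dir) volume δ (1 / 5) := by
    apply hii.mono_set
    rw [Set.uIcc_of_le (by linarith), Set.uIcc_of_le (by norm_num)]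
    exact Set.Icc_subset_Icc h0.le le_rfl
  have hsplit := intervalIntegral.integral_add_adjacent_intervals hs1 hs2
  have l1 := line_integral n F hF 0 dir δ (1 / 5) (by
    intro t ht
    rw [Set.uIcc_of_le (by linarith)] at ht
    rw [zero_add]
    apply mem_ball_I
    rw [re_dir, im_dir]
    nlinarith [ht.1, ht.2])
  have l2 := line_integral n F hF 0 I (2 * δ) (2 / 5) (by
    intro t ht
    rw [Set.uIcc_of_le (by linarith)] at ht
    apply mem_ball_I
    simp
    nlinarith [ht.1, ht.2])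
  have l3 := line_integral n F hF ((2 / 5) * I) 1 0 (1 / 5) (by
    intro t ht
    rw [Set.uIcc_of_le (by norm_num)] at ht
    apply mem_ball_I
    simp
    nlinarith [ht.1, ht.2])
  have l4 := line_integral n F hF ((2 * δ) * I) 1 0 δ (by
    intro t ht
    rw [Set.uIcc_of_le h0.le] at ht
    apply mem_ball_I
    simp
    nlinarith [ht.1, ht.2])
  have b2 := vertical n δ h0 h1
  have b3 := (Complex.abs_re_le_norm _).trans (horizontal n)
  have b4 := (Complex.abs_re_le_norm _).trans (short n δ h0 h1)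
  have b1 := (Complex.abs_re_le_norm _).trans (initial n δ h0 h1)
  have key : (∫ ρ in δ..(1 / 5 : ℝ), J n (ρ * dir) * dir) =
      (∫ r in (2 * δ)..(2 / 5 : ℝ), J n (0 + r * I) * I) +
      (∫ s in (0 : ℝ)..(1 / 5), J n ((2 / 5) * I + s * 1) * 1) -
      (∫ s in (0 : ℝ)..δ, J n ((2 * δ) * I + s * 1) * 1) := by
    rw [l2, l3, l4]
    simp only [zero_add] at l1
    rw [l1]
    have c1 : ((1 / 5 : ℝ) : ℂ) * dir = 2 / 5 * I + ((1 / 5 : ℝ) : ℂ) * 1 := by
      unfold dir; push_cast; ring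
    have c2 : (δ : ℂ) * dir = 2 * δ * I + (δ : ℂ) * 1 := by
      unfold dir; ring
    have c3 : (0 : ℂ) + ((2 / 5 : ℝ) : ℂ) * I = 2 / 5 * I + ((0 : ℝ) : ℂ) * 1 := by
      push_cast; ring
    have c4 : (0 : ℂ) + ((2 * δ : ℝ) : ℂ) * I = 2 * δ * I + ((0 : ℝ) : ℂ) * 1 := by
      push_cast; ring
    rw [c1, c2, c3, c4]
    ring
  rw [← hsplit, key]
  simp only [Complex.add_re, Complex.sub_re]
  have d1 := (abs_le.1 b1).2
  have d3 := (abs_le.1 b3).2
  have d4 := (abs_le.1 b4).1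
  linarith

lemma contour_final (n : ℕ) :
    (∫ ρ in (0 : ℝ)..(1 / 5), J n (ρ * dir) * dir).re ≤
      -(1 / 20 * Real.exp (-400) * (639 / 40) ^ n) + 1 / 5 * (1591 / 100) ^ n := by
  apply le_of_forall_pos_le_add
  intro ε hε
  have h17 : (0 : ℝ) < 17 ^ n := by positivity
  set δ : ℝ := min (1 / 50) (ε / (4 * 17 ^ n)) with hδ
  have hδ0 : 0 < δ := lt_min (by norm_num) (by positivity)
  have hδ1 : δ < 1 / 40 := (min_le_left _ _).trans_lt (by norm_num)
  have hδ2 : 4 * δ * 17 ^ n ≤ ε := by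
    have : δ ≤ ε / (4 * 17 ^ n) := min_le_right _ _
    rw [le_div_iff₀ (by positivity)] at this
    linarith
  have := contour n δ hδ0 hδ1
  linarith

/-- the bound tends to `-∞` -/
lemma bound_facts : (∃ C : ℝ, ∀ n : ℕ,
    -(1 / 20 * Real.exp (-400) * (639 / 40) ^ n) + 1 / 5 * (1591 / 100) ^ n ≤ C) ∧
    ∃ n : ℕ, -(1 / 20 * Real.exp (-400) * (639 / 40 : ℝ) ^ n) + 1 / 5 * (1591 / 100) ^ n < 0 := by
  have hκ : 0 < 1 / 20 * Real.exp (-400) := by positivity
  have ht : Tendsto (fun n : ℕ => 1 / 5 * ((1591 / 100) / (639 / 40) : ℝ) ^ n) atTop (𝓝 (1 / 5 * 0)) :=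
    (tendsto_pow_atTop_nhds_zero_of_lt_one (by norm_num) (by norm_num)).const_mul _
  rw [mul_zero] at ht
  obtain ⟨N, hN⟩ := eventually_atTop.1 (ht.eventually (gt_mem_nhds hκ))
  have key : ∀ n, N ≤ n →
      -(1 / 20 * Real.exp (-400) * (639 / 40 : ℝ) ^ n) + 1 / 5 * (1591 / 100) ^ n < 0 := by
    intro n hn
    have h1 := hN n hn
    rw [div_pow] at h1
    have h2 : (0 : ℝ) < (639 / 40) ^ n := by positivity
    have h3 := mul_lt_mul_of_pos_right h1 h2
    have h4 : 1 / 5 * ((1591 / 100) ^ n / (639 / 40 : ℝ) ^ n) * (639 / 40) ^ n =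
        1 / 5 * (1591 / 100) ^ n := by
      field_simp
    rw [h4] at h3
    linarith
  refine ⟨⟨1 / 5 * (1591 / 100) ^ N, fun n => ?_⟩, N, key N le_rfl⟩
  rcases le_total N n with h | h
  · have := key n h
    have : (0 : ℝ) ≤ 1 / 5 * (1591 / 100) ^ N := by positivity
    linarith
  · have h1 : (1591 / 100 : ℝ) ^ n ≤ (1591 / 100) ^ N := pow_le_pow_right₀ (by norm_num) h
    have h2 : 0 ≤ 1 / 20 * Real.exp (-400) * (639 / 40) ^ n := by positivity
    linarith

end Pool.Agent.H174.CC
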