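import Pool.Agent.H174.CC.Shift

namespace Pool.Agent.H174.CC

open scoped InnerProductSpace ComplexConjugate
open Complex Filter Topology

variable {H : Type*} [NormedAddCommGroup H] [InnerProductSpace ℂ H] [CompleteSpace H]
  (D : Shift H)

/-- `W = 1 - S` -/
noncomputable def Shift.W (D : Shift H) : H →L[ℂ] H := 1 - D.T

omit [CompleteSpace H] in
lemma Shift.W_apply (v : H) : D.W v = v - D.T v := rfl

omit [CompleteSpace H] in
lemma Shift.norm_W_apply (v : H) : ‖D.W v‖ ≤ 2 * ‖v‖ := by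
  rw [D.W_apply]
  have := norm_sub_le v (D.T v)
  rw [D.norm_T_apply] at this
  linarith

/-- `A = i W` -/
noncomputable def Shift.A (D : Shift H) : H →L[ℂ] H := (I : ℂ) • D.W

omit [CompleteSpace H] in
lemma Shift.A_apply (v : H) : D.A v = I • D.W v := rfl

omit [CompleteSpace H] in
lemma Shift.norm_A_apply (v : H) : ‖D.A v‖ ≤ 2 * ‖v‖ := by
  rw [D.A_apply, norm_smul]; simpa using D.norm_W_apply v

omit [CompleteSpace H] in
lemma Shift.norm_A_pow (n : ℕ) (v : H) : ‖(D.A ^ n) v‖ ≤ 2 ^ n * ‖v‖ := by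
  induction n with
  | zero => simp
  | succ n ih =>
    rw [pow_succ', ContinuousLinearMap.mul_apply]
    calc _ ≤ 2 * ‖(D.A ^ n) v‖ := D.norm_A_apply _
      _ ≤ 2 * (2 ^ n * ‖v‖) := by gcongr
      _ = _ := by ring

/-- the real parts of `f (A ^ n e)` vanish -/
def Shift.Hyp (D : Shift H) (f : StrongDual ℂ H) : Prop := ∀ n : ℕ, (f ((D.A ^ n) D.e)).re = 0

omit [CompleteSpace H] in
lemma Shift.Hyp.comp {f : StrongDual ℂ H} (h : D.Hyp f) : D.Hyp (f.comp D.A) := by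
  intro n
  have := h (n + 1)
  rw [pow_succ', ContinuousLinearMap.mul_apply] at this
  exact this

/-- `(1 + s W)⁻¹ e` -/
noncomputable def Shift.k (D : Shift H) (s : ℂ) : H := (1 + s)⁻¹ • D.v (s / (1 + s))

lemma one_add_ne {s : ℂ} (hs : -(1 / 2) < s.re) : 1 + s ≠ 0 := by
  intro h
  have := congrArg Complex.re h
  simp at this
  linarith

lemma normSq_diff (s : ℂ) : ‖1 + s‖ ^ 2 - ‖s‖ ^ 2 = 1 + 2 * s.re := by
  rw [Complex.sq_norm, Complex.sq_norm, Complex.normSq_apply, Complex.normSq_apply]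
  simp
  ring

lemma omega_lt {s : ℂ} (hs : -(1 / 2) < s.re) : ‖s / (1 + s)‖ < 1 := by
  have h0 := one_add_ne hs
  have h1 : 0 < ‖1 + s‖ := norm_pos_iff.2 h0
  rw [norm_div, div_lt_one h1]
  have := normSq_diff s
  nlinarith [norm_nonneg s]

lemma Shift.k_eq {s : ℂ} (hs : -(1 / 2) < s.re) : D.k s + s • D.W (D.k s) = D.e := by
  have h0 := one_add_ne hs
  have h1 := D.v_eq (omega_lt hs)
  have h2 : D.e = D.v (s / (1 + s)) - (s / (1 + s)) • D.T (D.v (s / (1 + s))) := by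
    rw [eq_sub_iff_add_eq]; exact h1.symm
  rw [h2, D.W_apply]
  unfold Shift.k
  rw [map_smul]
  set u := D.v (s / (1 + s))
  have e1 : (1 + s)⁻¹ • u + s • ((1 + s)⁻¹ • u - (1 + s)⁻¹ • D.T u) =
      ((1 + s) * (1 + s)⁻¹) • u - (s * (1 + s)⁻¹) • D.T u := by
    module
  rw [e1, mul_inv_cancel₀ h0, one_smul, div_eq_mul_inv]

lemma Shift.norm_k {s : ℂ} (hs : -(1 / 2) < s.re) : ‖D.k s‖ ^ 2 * (1 + 2 * s.re) = 1 := by
  have h0 := one_add_ne hs
  have h1 : 0 < ‖1 + s‖ := norm_pos_iff.2 h0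
  have h2 := D.norm_v (omega_lt hs)
  unfold Shift.k
  rw [norm_smul, norm_inv]
  rw [norm_div] at h2
  rw [← normSq_diff s]
  field_simp at h2 ⊢
  linarith

lemma Shift.f_v (f : StrongDual ℂ H) {ω : ℂ} (h : ‖ω‖ < 1) :
    f (D.v ω) = ∑' n : ℕ, ω ^ n * f ((D.T ^ n) D.e) := by
  unfold Shift.v
  rw [f.map_tsum (D.summable_v h)]
  simp

lemma isOpen_U : IsOpen {s : ℂ | -(1 / 2) < s.re} :=
  isOpen_lt continuous_const Complex.continuous_re

lemma Shift.diff_f_k (f : StrongDual ℂ H) :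
    DifferentiableOn ℂ (fun s => f (D.k s)) {s : ℂ | -(1 / 2) < s.re} := by
  have h1 : DifferentiableOn ℂ (fun z : ℂ => ∑' n : ℕ, z ^ n * f ((D.T ^ n) D.e))
      (Metric.ball 0 1) := by
    apply diff_pow_series _ ‖f‖
    intro n
    calc ‖f ((D.T ^ n) D.e)‖ ≤ ‖f‖ * ‖(D.T ^ n) D.e‖ := f.le_opNorm _
      _ = ‖f‖ := by rw [D.norm_pow_e, mul_one]
  have h2 : DifferentiableOn ℂ (fun s : ℂ => (1 + s)⁻¹ *
      (fun z : ℂ => ∑' n : ℕ, z ^ n * f ((D.T ^ n) D.e)) (s / (1 + s)))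
      {s : ℂ | -(1 / 2) < s.re} := by
    have h0 : ∀ s ∈ {s : ℂ | -(1 / 2) < s.re}, 1 + s ≠ 0 := fun s hs => one_add_ne hs
    apply DifferentiableOn.mul
    · apply DifferentiableOn.inv (by fun_prop) h0
    · apply h1.comp (t := Metric.ball 0 1) (DifferentiableOn.div (by fun_prop) (by fun_prop) h0)
      intro s hs
      simpa using omega_lt hs
  apply h2.congr
  intro s hs
  have := D.f_v f (omega_lt hs)
  simp only [Shift.k, map_smul, smul_eq_mul]
  rw [this]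

lemma Shift.norm_f_k (f : StrongDual ℂ H) {s : ℂ} (hs : 0 ≤ s.re) : ‖f (D.k s)‖ ≤ ‖f‖ := by
  have h1 := D.norm_k (s := s) (by linarith)
  have h2 : ‖D.k s‖ ^ 2 ≤ 1 := by nlinarith [sq_nonneg ‖D.k s‖]
  have h3 : ‖D.k s‖ ≤ 1 := by nlinarith [norm_nonneg (D.k s)]
  calc ‖f (D.k s)‖ ≤ ‖f‖ * ‖D.k s‖ := f.le_opNorm _
    _ ≤ ‖f‖ * 1 := by gcongr
    _ = ‖f‖ := mul_one _

lemma Shift.re_iter {f : StrongDual ℂ H} (h : D.Hyp f) (y : ℝ) (N : ℕ) :
    (f (D.k (y * I))).re = (-y) ^ N * (f ((D.A ^ N) (D.k (y * I)))).re := by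
  induction N with
  | zero => simp
  | succ N ih =>
    rw [ih]
    have h1 := D.k_eq (s := y * I) (by simp)
    have h2 : D.k (y * I) = D.e - (y : ℂ) • D.A (D.k (y * I)) := by
      rw [eq_sub_iff_add_eq, D.A_apply, smul_smul]; exact h1
    have h3 : (D.A ^ N) (D.k (y * I)) = (D.A ^ N) D.e -
        (y : ℂ) • (D.A ^ (N + 1)) (D.k (y * I)) := by
      conv_lhs => rw [h2]
      rw [map_sub, map_smul, pow_succ, ContinuousLinearMap.mul_apply]
    rw [h3, map_sub, map_smul, Complex.sub_re, h N, smul_eq_mul, Complex.re_ofReal_mul]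
    ring

lemma Shift.re_small {f : StrongDual ℂ H} (h : D.Hyp f) {y : ℝ} (hy : |y| < 1 / 2) :
    (f (D.k (y * I))).re = 0 := by
  have h1 : ∀ N : ℕ, |(f (D.k (y * I))).re| ≤ (2 * |y|) ^ N * (‖f‖ * ‖D.k (y * I)‖) := by
    intro N
    rw [D.re_iter h y N, abs_mul, abs_pow, abs_neg]
    have h2 : |(f ((D.A ^ N) (D.k (y * I)))).re| ≤ ‖f‖ * (2 ^ N * ‖D.k (y * I)‖) := by
      calc _ ≤ ‖f ((D.A ^ N) (D.k (y * I)))‖ := Complex.abs_re_le_norm _
        _ ≤ ‖f‖ * ‖(D.A ^ N) (D.k (y * I))‖ := f.le_opNorm _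
        _ ≤ _ := by gcongr; exact D.norm_A_pow _ _
    calc |y| ^ N * |(f ((D.A ^ N) (D.k (y * I)))).re| ≤
        |y| ^ N * (‖f‖ * (2 ^ N * ‖D.k (y * I)‖)) := by gcongr
      _ = _ := by rw [mul_pow]; ring
  have h2 : Tendsto (fun N : ℕ => (2 * |y|) ^ N * (‖f‖ * ‖D.k (y * I)‖)) atTop (𝓝 0) := by
    have := (tendsto_pow_atTop_nhds_zero_of_lt_one (r := 2 * |y|) (by positivity)
      (by linarith)).mul_const (‖f‖ * ‖D.k (y * I)‖)
    simpa using this
  have h3 : |(f (D.k (y * I))).re| ≤ 0 := ge_of_tendsto' h2 h1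
  exact abs_eq_zero.1 (le_antisymm h3 (abs_nonneg _))

lemma Shift.re_imag {f : StrongDual ℂ H} (h : D.Hyp f) (y : ℝ) : (f (D.k (y * I))).re = 0 := by
  have hF := (D.diff_f_k f).analyticOnNhd isOpen_U
  have h1 : AnalyticOnNhd ℝ (fun y : ℝ => (f (D.k (y * I))).re) Set.univ := by
    intro y _
    have a1 : AnalyticAt ℝ (fun s => f (D.k s)) ((y : ℂ) * I) :=
      (hF ((y : ℂ) * I) (by simp)).restrictScalars
    have a2 : AnalyticAt ℝ (fun y : ℝ => (y : ℂ) * I) y :=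
      (Complex.ofRealCLM.analyticAt y).mul analyticAt_const
    have a3 : AnalyticAt ℝ (fun y : ℝ => f (D.k (y * I))) y :=
      AnalyticAt.comp' (g := fun s => f (D.k s)) (f := fun y : ℝ => (y : ℂ) * I) a1 a2
    exact AnalyticAt.comp' (g := fun w : ℂ => w.re) (f := fun y : ℝ => f (D.k (y * I)))
      (Complex.reCLM.analyticAt _) a3
  have h2 : AnalyticOnNhd ℝ (fun _ : ℝ => (0 : ℝ)) Set.univ := fun y _ => analyticAt_const
  have h3 : (fun y : ℝ => (f (D.k (y * I))).re) =ᶠ[𝓝 0] fun _ => (0 : ℝ) := by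
    have : Set.Ioo (-(1 / 2) : ℝ) (1 / 2) ∈ 𝓝 (0 : ℝ) := Ioo_mem_nhds (by norm_num) (by norm_num)
    filter_upwards [this] with y hy
    exact D.re_small h (abs_lt.2 hy)
  exact congrFun (h1.eq_of_eventuallyEq h2 h3) y

lemma Shift.exp_le {f : StrongDual ℂ H} (h : D.Hyp f) {z : ℂ} (hz : 0 ≤ z.re) :
    (f (D.k z)).re ≤ 0 := by
  have hd : DiffContOnCl ℂ (fun z => Complex.exp (f (D.k z))) {z | 0 < z.re} := by
    apply DifferentiableOn.diffContOnCl
    rw [Complex.closure_setOf_lt_re]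
    apply DifferentiableOn.cexp
    apply (D.diff_f_k f).mono
    intro s hs
    have : (0 : ℝ) ≤ s.re := hs
    show -(1 / 2) < s.re
    linarith
  have hb : ∀ z : ℂ, 0 ≤ z.re → ‖Complex.exp (f (D.k z))‖ ≤ Real.exp ‖f‖ := by
    intro z hz
    rw [Complex.norm_exp]
    apply Real.exp_le_exp.2
    exact (Complex.re_le_norm _).trans (D.norm_f_k f hz)
  have := PhragmenLindelof.right_half_plane_of_bounded_on_real (C := 1) hd
    ⟨0, by norm_num, 0, by
      apply Asymptotics.IsBigO.of_bound (Real.exp ‖f‖)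
      rw [Filter.eventually_inf_principal]
      apply Filter.Eventually.of_forall
      intro w hw
      have := hb w (le_of_lt hw)
      simpa using this⟩
    (Filter.isBoundedUnder_of_eventually_le (a := Real.exp ‖f‖) (by
      filter_upwards [Filter.eventually_ge_atTop (0 : ℝ)] with x hx
      exact hb x (by simpa using hx)))
    (fun x => by rw [Complex.norm_exp, D.re_imag h x]; simp) hz
  rw [Complex.norm_exp, ← Real.exp_zero] at this
  exact Real.exp_le_exp.1 this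

omit [CompleteSpace H] in
lemma Shift.Hyp.neg {f : StrongDual ℂ H} (h : D.Hyp f) : D.Hyp (-f) := by
  intro n
  rw [ContinuousLinearMap.neg_apply, Complex.neg_re, h n, neg_zero]

lemma Shift.re_zero {f : StrongDual ℂ H} (h : D.Hyp f) {z : ℂ} (hz : 0 ≤ z.re) :
    (f (D.k z)).re = 0 := by
  have h1 := D.exp_le h hz
  have h2 := D.exp_le h.neg hz
  simp at h2
  linarith

lemma Shift.f_e {f : StrongDual ℂ H} (h : D.Hyp f) : f D.e = 0 := by
  have h1 : ∀ r : ℝ, 0 < r → f D.e = f (D.k r) := by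
    intro r hr
    have a1 := D.re_zero h (z := (r : ℂ)) (by simpa using hr.le)
    have a2 := D.re_zero h.comp (z := (r : ℂ)) (by simpa using hr.le)
    have a3 := h 0
    simp only [pow_zero, ContinuousLinearMap.one_apply] at a3
    have a4 := D.k_eq (s := (r : ℂ)) (by simp; linarith)
    have a5 : f (D.k r) + (r : ℂ) * f (D.W (D.k r)) = f D.e := by
      rw [← a4]; simp [a4]
    rw [ContinuousLinearMap.comp_apply, D.A_apply, map_smul, smul_eq_mul] at a2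
    have a6 : (f (D.W (D.k r))).im = 0 := by simpa using a2
    apply Complex.ext
    · rw [a1, a3]
    · rw [← a5, Complex.add_im, Complex.im_ofReal_mul, a6]; simp
  by_contra hne
  have hp : 0 < ‖f D.e‖ := norm_pos_iff.2 hne
  have h2 : ∀ r : ℝ, 0 < r → ‖f D.e‖ ^ 2 * (1 + 2 * r) ≤ ‖f‖ ^ 2 := by
    intro r hr
    have b1 := D.norm_k (s := (r : ℂ)) (by simp; linarith)
    have b2 : ‖f (D.k r)‖ ≤ ‖f‖ * ‖D.k r‖ := f.le_opNorm _
    simp only [Complex.ofReal_re] at b1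
    rw [h1 r hr]
    calc ‖f (D.k r)‖ ^ 2 * (1 + 2 * r) ≤ (‖f‖ * ‖D.k r‖) ^ 2 * (1 + 2 * r) := by gcongr
      _ = ‖f‖ ^ 2 * (‖D.k r‖ ^ 2 * (1 + 2 * r)) := by ring
      _ = ‖f‖ ^ 2 := by rw [b1, mul_one]
  have h3 := h2 (‖f‖ ^ 2 / ‖f D.e‖ ^ 2 + 1) (by positivity)
  have h4 : ‖f D.e‖ ^ 2 * (1 + 2 * (‖f‖ ^ 2 / ‖f D.e‖ ^ 2 + 1)) =
      3 * ‖f D.e‖ ^ 2 + 2 * ‖f‖ ^ 2 := by field_simp; ring
  rw [h4] at h3
  nlinarith [sq_nonneg ‖f‖]

lemma Shift.f_pow (n : ℕ) : ∀ {f : StrongDual ℂ H}, D.Hyp f → f ((D.T ^ n) D.e) = 0 := by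
  induction n with
  | zero => intro f h; simpa using D.f_e h
  | succ n ih =>
    intro f h
    have h1 := ih h
    have h2 := ih h.comp
    rw [ContinuousLinearMap.comp_apply, D.A_apply, map_smul, smul_eq_mul, D.W_apply, map_sub,
      h1] at h2
    rw [pow_succ', ContinuousLinearMap.mul_apply]
    simpa using h2

/-- **Density of the real polynomials.** -/
lemma Shift.eq_zero {f : StrongDual ℂ H} (h : D.Hyp f) : f = 0 := D.cyc f fun n => D.f_pow n h

end Pool.Agent.H174.CC
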