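import Pool.Agent.H174.CC.Dense

namespace Pool.Agent.H174.CC

open scoped InnerProductSpace ComplexConjugate
open Complex Filter Topology Polynomial

section iteration

/-- polynomials which tend to `0` near the point `-16` and to `1` near the point `0` -/
noncomputable def P : ℕ → ℝ[X]
  | 0 => 1 + C (1 / 16) * X
  | j + 1 => 3 * P j ^ 2 - 2 * P j ^ 3

lemma P_succ (j : ℕ) : P (j + 1) = 3 * P j ^ 2 - 2 * P j ^ 3 := rfl

lemma one_sub_P_succ (j : ℕ) : 1 - P (j + 1) = 3 * (1 - P j) ^ 2 - 2 * (1 - P j) ^ 3 := by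
  rw [P_succ]; ring

lemma iter_bound {𝔸 : Type*} [SeminormedRing 𝔸] [NormedAlgebra ℝ 𝔸] (y : ℕ → 𝔸)
    (h0 : ‖y 0‖ ≤ 1 / 4) (hs : ∀ j, y (j + 1) = 3 * y j ^ 2 - 2 * y j ^ 3) (j : ℕ) :
    ‖y j‖ ≤ 1 / 4 * (7 / 8) ^ j := by
  induction j with
  | zero => simpa using h0
  | succ j ih =>
    have h1 : ‖y j‖ ≤ 1 / 4 := ih.trans (by
      have : (7 / 8 : ℝ) ^ j ≤ 1 := pow_le_one₀ (by norm_num) (by norm_num)
      linarith)
    have e3 : (3 : 𝔸) * y j ^ 2 = (3 : ℝ) • y j ^ 2 := by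
      rw [Algebra.smul_def, map_ofNat]
    have e2 : (2 : 𝔸) * y j ^ 3 = (2 : ℝ) • y j ^ 3 := by
      rw [Algebra.smul_def, map_ofNat]
    have h2 : ‖y j ^ 2‖ ≤ ‖y j‖ ^ 2 := by
      rw [pow_two, pow_two]; exact norm_mul_le _ _
    have h3 : ‖y j ^ 3‖ ≤ ‖y j‖ ^ 3 := by
      rw [pow_succ, pow_succ ‖y j‖]
      exact (norm_mul_le _ _).trans (by gcongr)
    rw [hs, e3, e2]
    calc ‖(3 : ℝ) • y j ^ 2 - (2 : ℝ) • y j ^ 3‖ ≤ ‖(3 : ℝ) • y j ^ 2‖ + ‖(2 : ℝ) • y j ^ 3‖ :=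
          norm_sub_le _ _
      _ ≤ 3 * ‖y j‖ ^ 2 + 2 * ‖y j‖ ^ 3 := by
          rw [norm_smul, norm_smul]; norm_num; gcongr
      _ = ‖y j‖ * (3 * ‖y j‖ + 2 * ‖y j‖ ^ 2) := by ring
      _ ≤ (1 / 4 * (7 / 8) ^ j) * (7 / 8) := by
          have : 3 * ‖y j‖ + 2 * ‖y j‖ ^ 2 ≤ 7 / 8 := by nlinarith [norm_nonneg (y j)]
          have h0 := norm_nonneg (y j)
          gcongr
      _ = _ := by ring

end iteration

/-- nonnegative coefficients -/
def NN (p : ℝ[X]) : Prop := ∀ k, 0 ≤ p.coeff k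

lemma NN.mul {p q : ℝ[X]} (hp : NN p) (hq : NN q) : NN (p * q) := by
  intro k
  rw [coeff_mul]
  exact Finset.sum_nonneg fun i _ => mul_nonneg (hp _) (hq _)

lemma NN.add {p q : ℝ[X]} (hp : NN p) (hq : NN q) : NN (p + q) := by
  intro k
  rw [coeff_add]; exact add_nonneg (hp _) (hq _)

lemma NN_X : NN X := by
  intro k
  rw [coeff_X]; split_ifs <;> norm_num

lemma NN_C {a : ℝ} (h : 0 ≤ a) : NN (C a) := by
  intro k
  rw [coeff_C]; split_ifs <;> [exact h; exact le_rfl]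

lemma NN_one : NN 1 := by rw [← C_1]; exact NN_C zero_le_one

lemma NN.pow {p : ℝ[X]} (hp : NN p) (k : ℕ) : NN (p ^ k) := by
  induction k with
  | zero => simpa using NN_one
  | succ k ih => rw [pow_succ]; exact ih.mul hp

/-- `g = X (1 + X / 16)` -/
noncomputable def g : ℝ[X] := X * P 0

lemma NN_g : NN g := NN_X.mul (NN_one.add ((NN_C (by norm_num)).mul NN_X))

lemma NN_g_sub (k : ℕ) : NN (g ^ k - X ^ k) := by
  induction k with
  | zero => intro k; simp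
  | succ k ih =>
    have e : g ^ (k + 1) - X ^ (k + 1) = g * (g ^ k - X ^ k) + (X * (C (1 / 16) * X)) * X ^ k := by
      have : g = X + X * (C (1 / 16) * X) := by unfold g P; ring
      have e2 : X * (C (1 / 16) * X) = g - X := by rw [this]; ring
      rw [e2]; ring
    rw [e]
    exact (NN_g.mul ih).add ((NN_X.mul ((NN_C (by norm_num)).mul NN_X)).mul (NN_X.pow k))

section

variable {H : Type*} [NormedAddCommGroup H] [InnerProductSpace ℂ H] [CompleteSpace H]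

/-- `Re f (p(T) x)` -/
noncomputable def L (f : StrongDual ℂ H) (T : H →L[ℂ] H) (x : H) (p : ℝ[X]) : ℝ :=
  (f ((aeval T p) x)).re

omit [CompleteSpace H] in
lemma L_add (f : StrongDual ℂ H) (T : H →L[ℂ] H) (x : H) (p q : ℝ[X]) :
    L f T x (p + q) = L f T x p + L f T x q := by
  unfold L; simp

omit [CompleteSpace H] in
lemma L_sub (f : StrongDual ℂ H) (T : H →L[ℂ] H) (x : H) (p q : ℝ[X]) :
    L f T x (p - q) = L f T x p - L f T x q := by
  unfold L; simp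

omit [CompleteSpace H] in
lemma L_monomial (f : StrongDual ℂ H) (T : H →L[ℂ] H) (x : H) (n : ℕ) (a : ℝ) :
    L f T x (monomial n a) = a * (f ((T ^ n) x)).re := by
  unfold L
  rw [aeval_monomial, ContinuousLinearMap.mul_apply]
  have : ∀ y : H, (algebraMap ℝ (H →L[ℂ] H) a) y = (a : ℂ) • y := by
    intro y
    rw [Algebra.algebraMap_eq_smul_one]
    simp
  rw [this, map_smul, smul_eq_mul, Complex.re_ofReal_mul]

omit [CompleteSpace H] in
/-- `C p(1) - L(p)` is nonnegative for the polynomials with nonnegative coefficients -/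
lemma N_nonneg (f : StrongDual ℂ H) (T : H →L[ℂ] H) (x : H) (c : ℝ)
    (hc : ∀ n : ℕ, (f ((T ^ n) x)).re ≤ c) (p : ℝ[X]) (hp : NN p) :
    L f T x p ≤ c * p.eval 1 := by
  have h1 : L f T x p = ∑ k ∈ p.support, p.coeff k * (f ((T ^ k) x)).re := by
    conv_lhs => rw [p.as_sum_support]
    unfold L
    rw [map_sum, ContinuousLinearMap.sum_apply, map_sum, Complex.re_sum]
    apply Finset.sum_congr rfl
    intro k _
    exact L_monomial f T x k _
  have h2 : p.eval 1 = ∑ k ∈ p.support, p.coeff k := by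
    rw [eval_eq_sum, sum_def]; simp
  rw [h1, h2, Finset.mul_sum]
  apply Finset.sum_le_sum
  intro k _
  rw [mul_comm c]
  exact mul_le_mul_of_nonneg_left (hc k) (hp k)

omit [CompleteSpace H] in
lemma norm_pow_apply_le (B : H →L[ℂ] H) (hB : ‖B‖ ≤ 1) (k : ℕ) (x : H) : ‖(B ^ k) x‖ ≤ ‖x‖ := by
  induction k with
  | zero => simp
  | succ k ih =>
    rw [pow_succ', ContinuousLinearMap.mul_apply]
    calc _ ≤ ‖B‖ * ‖(B ^ k) x‖ := B.le_opNorm _
      _ ≤ 1 * ‖(B ^ k) x‖ := by gcongr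
      _ ≤ ‖x‖ := by linarith

omit [CompleteSpace H] in
lemma aeval_P0 (T : H →L[ℂ] H) : aeval T (P 0) = (1 / 16 : ℝ) • (T + 16) := by
  unfold P
  rw [map_add, map_one, map_mul, aeval_C, aeval_X, ← Algebra.smul_def, smul_add]
  have : (16 : H →L[ℂ] H) = (16 : ℝ) • (1 : H →L[ℂ] H) := by
    rw [← Algebra.algebraMap_eq_smul_one, map_ofNat]
  rw [this, smul_smul]
  norm_num
  rw [add_comm]

omit [CompleteSpace H] in
lemma norm_aeval_P0 {T : H →L[ℂ] H} (hT : ‖T + 16‖ ≤ 1 / 2) : ‖aeval T (P 0)‖ ≤ 1 / 32 := by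
  rw [aeval_P0, norm_smul]
  norm_num
  linarith

omit [CompleteSpace H] in
lemma growth (f : StrongDual ℂ H) {T : H →L[ℂ] H} (hT : ‖T + 16‖ ≤ 1 / 2) (x : H) {c : ℝ}
    (hc : ∀ n : ℕ, (f ((T ^ n) x)).re ≤ c) :
    ∃ C1 : ℝ, ∀ n : ℕ, |(f ((T ^ n) x)).re| ≤ C1 * 2 ^ n := by
  have h16 : ‖(16 : H →L[ℂ] H)‖ ≤ 16 := by
    have : (16 : H →L[ℂ] H) = (16 : ℝ) • (1 : H →L[ℂ] H) := by
      rw [← Algebra.algebraMap_eq_smul_one, map_ofNat]
    rw [this, norm_smul]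
    have := ContinuousLinearMap.norm_id_le (𝕜 := ℂ) (E := H)
    have h1 : ‖(1 : H →L[ℂ] H)‖ ≤ 1 := this
    norm_num
    linarith
  have hTn : ‖T‖ ≤ 17 := by
    calc ‖T‖ = ‖(T + 16) - 16‖ := by rw [add_sub_cancel_right]
      _ ≤ ‖T + 16‖ + ‖(16 : H →L[ℂ] H)‖ := norm_sub_le _ _
      _ ≤ 17 := by linarith
  have hg : ‖aeval T g‖ ≤ 1 := by
    unfold g
    rw [map_mul, aeval_X]
    calc ‖T * aeval T (P 0)‖ ≤ ‖T‖ * ‖aeval T (P 0)‖ := norm_mul_le _ _
      _ ≤ 17 * (1 / 32) := by gcongr; exact norm_aeval_P0 hT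
      _ ≤ 1 := by norm_num
  set c' := max c 0 with hc'
  have hc1 : ∀ n : ℕ, (f ((T ^ n) x)).re ≤ c' := fun n => (hc n).trans (le_max_left _ _)
  have hc0 : 0 ≤ c' := le_max_right _ _
  refine ⟨c' + ‖f‖ * ‖x‖, fun n => ?_⟩
  have h1 := N_nonneg f T x c' hc1 _ (NN_g_sub n)
  have h2 : |L f T x (g ^ n)| ≤ ‖f‖ * ‖x‖ := by
    unfold L
    rw [map_pow]
    calc _ ≤ ‖f ((aeval T g ^ n) x)‖ := Complex.abs_re_le_norm _
      _ ≤ ‖f‖ * ‖(aeval T g ^ n) x‖ := f.le_opNorm _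
      _ ≤ ‖f‖ * ‖x‖ := by gcongr; exact norm_pow_apply_le _ hg _ _
  have h3 : L f T x (X ^ n) = (f ((T ^ n) x)).re := by
    unfold L; rw [map_pow, aeval_X]
  have h4 : (g ^ n - X ^ n).eval 1 = (17 / 16) ^ n - 1 := by
    unfold g P
    simp
    norm_num
  rw [L_sub, h3, h4] at h1
  have h5 : ((17 : ℝ) / 16) ^ n ≤ 2 ^ n := by gcongr; norm_num
  have h6 : (1 : ℝ) ≤ 2 ^ n := one_le_pow₀ (by norm_num)
  have h7 := hc1 n
  have h8 := abs_le.1 h2
  have h9 : 0 ≤ ‖f‖ * ‖x‖ := by positivity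
  rw [abs_le]
  constructor
  · nlinarith [h8.1, h8.2]
  · nlinarith [h8.1, h8.2]

/-- **Elimination of the positivity.** If the real parts of `f (T ^ n x)` are bounded above, then
the real parts of all `f (p(T) x)`, with real polynomials `p`, vanish. -/
theorem elim (D : Shift H) (f : StrongDual ℂ H) {T : H →L[ℂ] H} (hT : ‖T + 16‖ ≤ 1 / 2) (x : H)
    {c : ℝ} (hc : ∀ n : ℕ, (f ((T ^ n) x)).re ≤ c) (q : ℝ[X]) : L f T x q = 0 := by
  obtain ⟨C1, hC1⟩ := growth f hT x hc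
  set r : ℕ → ℝ := fun n => (f ((T ^ n) x)).re with hr
  have hC0 : 0 ≤ C1 := by have := (abs_nonneg _).trans (hC1 0); simpa using this
  have hsum : Summable fun n : ℕ => ((r n / 3 ^ n : ℝ) : ℂ) • (D.T ^ n) D.e := by
    apply Summable.of_norm_bounded (g := fun n : ℕ => C1 * (2 / 3) ^ n)
      ((summable_geometric_of_lt_one (by norm_num) (by norm_num)).mul_left C1)
    intro n
    rw [norm_smul, D.norm_pow_e, mul_one, Complex.norm_real, Real.norm_eq_abs, abs_div, abs_pow,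
      abs_of_pos (by norm_num : (0 : ℝ) < 3), div_pow]
    have := hC1 n
    calc |r n| / 3 ^ n ≤ (C1 * 2 ^ n) / 3 ^ n := by gcongr
      _ = _ := by ring
  set w : H := ∑' n : ℕ, ((r n / 3 ^ n : ℝ) : ℂ) • (D.T ^ n) D.e with hw
  have hwm : ∀ m : ℕ, (⟪w, (D.T ^ m) D.e⟫_ℂ) = ((r m / 3 ^ m : ℝ) : ℂ) := by
    intro m
    rw [← inner_conj_symm]
    have h1 : ⟪(D.T ^ m) D.e, w⟫_ℂ =
        ∑' n : ℕ, ⟪(D.T ^ m) D.e, ((r n / 3 ^ n : ℝ) : ℂ) • (D.T ^ n) D.e⟫_ℂ :=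
      (innerSL ℂ ((D.T ^ m) D.e)).map_tsum hsum
    rw [h1, tsum_eq_single m]
    · rw [inner_smul_right, D.inner_pow, if_pos rfl, mul_one, Complex.conj_ofReal]
    · intro n hn
      rw [inner_smul_right, D.inner_pow, if_neg (Ne.symm hn), mul_zero]
  set R : H →L[ℂ] H := (3 : ℂ) • D.T with hR
  have hRn : ‖R‖ ≤ 3 := by
    rw [hR, norm_smul]
    have : ‖D.T‖ ≤ 1 := ContinuousLinearMap.opNorm_le_bound _ zero_le_one
      (fun v => by rw [D.norm_T_apply, one_mul])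
    norm_num
    linarith
  have hRpow : ∀ (n : ℕ), (R ^ n) D.e = ((3 : ℂ) ^ n) • (D.T ^ n) D.e := by
    intro n
    rw [hR, _root_.smul_pow]; rfl
  have hL : ∀ p : ℝ[X], L f T x p = L (innerSL ℂ w) R D.e p := by
    intro p
    induction p using Polynomial.induction_on' with
    | add p q hp hq => rw [L_add, L_add, hp, hq]
    | monomial n a =>
      rw [L_monomial, L_monomial, hRpow, map_smul, innerSL_apply_apply, hwm, smul_eq_mul,
        ← Complex.ofReal_ofNat, ← Complex.ofReal_pow, ← Complex.ofReal_mul, Complex.ofReal_re]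
      have : (3 : ℝ) ^ n ≠ 0 := by positivity
      congr 1
      field_simp
      rfl
  have y0 : ‖aeval T (P 0)‖ ≤ 1 / 4 := (norm_aeval_P0 hT).trans (by norm_num)
  have z0 : ‖aeval R (1 - P 0)‖ ≤ 1 / 4 := by
    have : (1 : ℝ[X]) - P 0 = -(C (1 / 16) * X) := by unfold P; ring
    rw [this, map_neg, norm_neg, map_mul, aeval_C, aeval_X, ← Algebra.smul_def, norm_smul]
    norm_num
    linarith
  have hy := iter_bound (fun j => aeval T (P j)) y0 (fun j => by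
    simp only [P_succ, map_sub, map_mul, map_pow, map_ofNat])
  have hz := iter_bound (fun j => aeval R (1 - P j)) z0 (fun j => by
    simp only [one_sub_P_succ, map_sub, map_mul, map_pow, map_ofNat, map_one])
  have hkey : ∀ j : ℕ, |L f T x q| ≤
      (‖f‖ * ‖aeval T q‖ * ‖x‖ + ‖w‖ * ‖aeval R q‖) * (1 / 4 * (7 / 8) ^ j) := by
    intro j
    have e1 : L f T x q = L f T x (q * P j) + L (innerSL ℂ w) R D.e (q * (1 - P j)) := by
      rw [← hL, ← L_add]; congr 1; ring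
    have b1 : |L f T x (q * P j)| ≤ ‖f‖ * ‖aeval T q‖ * ‖x‖ * (1 / 4 * (7 / 8) ^ j) := by
      unfold L
      rw [map_mul, ContinuousLinearMap.mul_apply]
      calc _ ≤ ‖f ((aeval T q) ((aeval T (P j)) x))‖ := Complex.abs_re_le_norm _
        _ ≤ ‖f‖ * ‖(aeval T q) ((aeval T (P j)) x)‖ := f.le_opNorm _
        _ ≤ ‖f‖ * (‖aeval T q‖ * ‖(aeval T (P j)) x‖) := by
            gcongr; exact ContinuousLinearMap.le_opNorm _ _
        _ ≤ ‖f‖ * (‖aeval T q‖ * (‖aeval T (P j)‖ * ‖x‖)) := by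
            gcongr; exact ContinuousLinearMap.le_opNorm _ _
        _ ≤ ‖f‖ * (‖aeval T q‖ * ((1 / 4 * (7 / 8) ^ j) * ‖x‖)) := by
            gcongr; exact hy j
        _ = _ := by ring
    have b2 : |L (innerSL ℂ w) R D.e (q * (1 - P j))| ≤
        ‖w‖ * ‖aeval R q‖ * (1 / 4 * (7 / 8) ^ j) := by
      unfold L
      rw [map_mul, ContinuousLinearMap.mul_apply]
      calc _ ≤ ‖(innerSL ℂ w) ((aeval R q) ((aeval R (1 - P j)) D.e))‖ :=
            Complex.abs_re_le_norm _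
        _ ≤ ‖w‖ * ‖(aeval R q) ((aeval R (1 - P j)) D.e)‖ := norm_inner_le_norm _ _
        _ ≤ ‖w‖ * (‖aeval R q‖ * ‖(aeval R (1 - P j)) D.e‖) := by
            gcongr; exact ContinuousLinearMap.le_opNorm _ _
        _ ≤ ‖w‖ * (‖aeval R q‖ * (‖aeval R (1 - P j)‖ * ‖D.e‖)) := by
            gcongr; exact ContinuousLinearMap.le_opNorm _ _
        _ ≤ ‖w‖ * (‖aeval R q‖ * ((1 / 4 * (7 / 8) ^ j) * 1)) := by
            rw [D.norm_e]; gcongr; exact hz j
        _ = _ := by ring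
    rw [e1]
    calc _ ≤ |L f T x (q * P j)| + |L (innerSL ℂ w) R D.e (q * (1 - P j))| := abs_add_le _ _
      _ ≤ _ := by rw [add_mul]; exact add_le_add b1 b2
  have ht : Tendsto (fun j : ℕ => (‖f‖ * ‖aeval T q‖ * ‖x‖ + ‖w‖ * ‖aeval R q‖) *
      (1 / 4 * (7 / 8 : ℝ) ^ j)) atTop (𝓝 0) := by
    have := ((tendsto_pow_atTop_nhds_zero_of_lt_one (r := (7 / 8 : ℝ)) (by norm_num)
      (by norm_num)).const_mul (1 / 4)).const_mul
      (‖f‖ * ‖aeval T q‖ * ‖x‖ + ‖w‖ * ‖aeval R q‖)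
    simpa using this
  exact abs_eq_zero.1 (le_antisymm (ge_of_tendsto' ht hkey) (abs_nonneg _))

end

end Pool.Agent.H174.CC
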