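import Pool.Agent.H174.CC.Neg

namespace Pool.Agent.H174.CC

open scoped InnerProductSpace
open Complex Filter Topology Polynomial

section

variable {H : Type*} [NormedAddCommGroup H] [InnerProductSpace ℂ H]

/-- A bounded orbit functional prevents density of the convex hull of the orbit. -/
lemma not_dense (T : H →L[ℂ] H) (x : H) (f : StrongDual ℂ H) (hf : f ≠ 0) (C : ℝ)
    (hC : ∀ n : ℕ, (f ((T ^ n) x)).re ≤ C) :
    ¬ Dense (convexHull ℝ (Set.range fun n : ℕ => (T ^ n) x)) := by
  intro hd
  have hsub : convexHull ℝ (Set.range fun n : ℕ => (T ^ n) x) ⊆ {y | (f y).re ≤ C} := by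
    apply convexHull_min
    · rintro _ ⟨n, rfl⟩
      exact hC n
    · intro y hy z hz a b ha hb hab
      simp only [Set.mem_setOf_eq] at hy hz ⊢
      have e1 : f (a • y + b • z) = (a : ℂ) * f y + (b : ℂ) * f z := by
        rw [map_add, ← Complex.coe_smul, ← Complex.coe_smul, map_smul, map_smul, smul_eq_mul,
          smul_eq_mul]
      rw [e1, Complex.add_re, Complex.re_ofReal_mul, Complex.re_ofReal_mul]
      calc a * (f y).re + b * (f z).re ≤ a * C + b * C :=
            add_le_add (mul_le_mul_of_nonneg_left hy ha) (mul_le_mul_of_nonneg_left hz hb)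
        _ = C := by rw [← add_mul, hab, one_mul]
  have hclosed : IsClosed {y | (f y).re ≤ C} :=
    isClosed_le (Complex.continuous_re.comp f.continuous) continuous_const
  have hall : ∀ y, (f y).re ≤ C := by
    intro y
    have h1 : closure (convexHull ℝ (Set.range fun n : ℕ => (T ^ n) x)) ⊆ {y | (f y).re ≤ C} :=
      closure_minimal hsub hclosed
    exact h1 (hd y)
  obtain ⟨y, hy⟩ : ∃ y, f y ≠ 0 := by
    by_contra h
    push Not at h
    exact hf (ContinuousLinearMap.ext h)
  have h2 := hall ((((C + 1 : ℝ) : ℂ) / f y) • y)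
  rw [map_smul, smul_eq_mul, div_mul_cancel₀ _ hy, Complex.ofReal_re] at h2
  linarith

variable [CompleteSpace H]

lemma Shift.norm_A (D : Shift H) : ‖D.A‖ ≤ 2 :=
  D.A.opNorm_le_bound (by norm_num) D.norm_A_apply

lemma Shift.neg_B_add (D : Shift H) : -D.B + 16 = -((1 / 4 : ℂ) • D.A) := by
  unfold Shift.B
  have : (16 : H →L[ℂ] H) = (16 : ℂ) • 1 := by
    rw [← Algebra.algebraMap_eq_smul_one, map_ofNat]
  rw [this]
  abel

lemma Shift.norm_neg_B_add (D : Shift H) : ‖-D.B + 16‖ ≤ 1 / 2 := by
  rw [D.neg_B_add, norm_neg, norm_smul]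
  have := D.norm_A
  norm_num
  linarith

lemma Shift.A_eq (D : Shift H) : D.A = aeval (-D.B) (C (-4 : ℝ) * (X + C 16)) := by
  rw [map_mul, map_add, aeval_X, aeval_C, aeval_C, map_ofNat, D.neg_B_add,
    Algebra.algebraMap_eq_smul_one, smul_mul_assoc, one_mul, smul_neg, neg_smul, neg_neg]
  ext v
  simp only [ContinuousLinearMap.smul_apply]
  rw [← Complex.coe_smul, smul_smul]
  norm_num

lemma Shift.dense_neg_B (D : Shift H) :
    Dense (convexHull ℝ (Set.range fun n : ℕ => ((-D.B) ^ n) D.e)) := by
  intro y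
  by_contra hy
  obtain ⟨f, u, h1, h2⟩ := RCLike.geometric_hahn_banach_closed_point (𝕜 := ℂ)
    (convex_convexHull ℝ (Set.range fun n : ℕ => ((-D.B) ^ n) D.e)).closure isClosed_closure hy
  have h3 : ∀ n : ℕ, (f (((-D.B) ^ n) D.e)).re ≤ u := fun n =>
    (h1 _ (subset_closure (subset_convexHull ℝ _ ⟨n, rfl⟩))).le
  have h4 : D.Hyp f := by
    intro n
    have := elim D f D.norm_neg_B_add D.e h3 ((C (-4 : ℝ) * (X + C 16)) ^ n)
    unfold L at this
    rwa [map_pow, ← D.A_eq] at this
  have h5 := D.eq_zero h4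
  have h6 := h1 _ (subset_closure (subset_convexHull ℝ _ ⟨0, rfl⟩))
  rw [h5] at h6 h2
  simp at h6 h2
  linarith

/-- the model of the shift on a Hilbert space with a Hilbert basis -/
noncomputable def model (b : HilbertBasis ℕ ℂ H) : Shift H := by
  classical
  have hb := b.orthonormal.comp (fun n : ℕ => n + 1) (add_left_injective 1)
  let S : H →ₗᵢ[ℂ] H := (hb.orthogonalFamily).linearIsometry.comp b.repr.toLinearIsometry
  have hS : ∀ n, S (b n) = b (n + 1) := by
    intro n
    show hb.orthogonalFamily.linearIsometry (b.repr (b n)) = _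
    rw [b.repr_self, OrthogonalFamily.linearIsometry_apply_single]
    simp [LinearIsometry.toSpanSingleton_apply]
  refine
    { S := S
      e := b 0
      norm_e := b.orthonormal.1 0
      orth := ?_
      cyc := ?_ }
  · intro v
    have h1 : HasSum _ (S v) := hb.orthogonalFamily.hasSum_linearIsometry (b.repr v)
    have h2 := h1.mapL (innerSL ℂ (b 0))
    have h3 : (fun i : ℕ => innerSL ℂ (b 0) ((LinearIsometry.toSpanSingleton ℂ H (hb.1 i))
        ((b.repr v) i))) = fun _ => 0 := by
      funext i
      rw [LinearIsometry.toSpanSingleton_apply, map_smul]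
      have : ⟪b 0, b (i + 1)⟫_ℂ = 0 := b.orthonormal.2 (by simp)
      simp only [innerSL_apply_apply, Function.comp, smul_eq_mul]
      rw [this, mul_zero]
    rw [h3] at h2
    exact (hasSum_zero.unique h2).symm
  · intro f hf
    have h1 : ∀ n : ℕ, (S.toContinuousLinearMap ^ n) (b 0) = b n := by
      intro n
      induction n with
      | zero => simp
      | succ n ih =>
        rw [pow_succ']
        show S ((S.toContinuousLinearMap ^ n) (b 0)) = _
        rw [ih, hS]
    apply ContinuousLinearMap.ext_on (s := Set.range b)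
    · rw [dense_iff_closure_eq, ← Submodule.topologicalClosure_coe, b.dense_span]
      rfl
    · rintro _ ⟨n, rfl⟩
      have := hf n
      rw [h1] at this
      rw [this]; rfl

end

end Pool.Agent.H174.CC
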