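import Pool.Agent.H174.CC.Elim

namespace Pool.Agent.H174.CC

open scoped InnerProductSpace ComplexConjugate
open Complex Filter Topology Metric

/-- A nonvanishing holomorphic function on the unit disc which grows at most like
`(1 - |z|²)^(-1/2)` is bounded below by `exp (-K / (1 - |z|)^(3/2))`. -/
lemma lower_bound (X : ℂ → ℂ) (hX : DifferentiableOn ℂ X (ball 0 1))
    (h0 : ∀ z ∈ ball (0 : ℂ) 1, X z ≠ 0) (M : ℝ)
    (hM : ∀ z ∈ ball (0 : ℂ) 1, ‖X z‖ ^ 2 * (1 - ‖z‖ ^ 2) ≤ M ^ 2) :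
    ∃ K : ℝ, 0 ≤ K ∧ ∀ z ∈ ball (0 : ℂ) 1,
      Real.exp (-(K / ((1 - ‖z‖) * Real.sqrt (1 - ‖z‖)))) ≤ ‖X z‖ := by
  -- the logarithm
  have hd : DifferentiableOn ℂ (fun z => deriv X z / X z) (ball 0 1) :=
    (hX.deriv isOpen_ball).div hX h0
  obtain ⟨L0, hL0⟩ := hd.isExactOn_ball
  have hx0 : X 0 ≠ 0 := h0 0 (by simp)
  set Lf : ℂ → ℂ := fun z => L0 z - L0 0 + Complex.log (X 0) with hLf
  have hLd : ∀ z ∈ ball (0 : ℂ) 1, HasDerivAt Lf (deriv X z / X z) z := by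
    intro z hz
    exact ((hL0 z hz).sub_const _).add_const _
  have hexp : ∀ z ∈ ball (0 : ℂ) 1, X z = Complex.exp (Lf z) := by
    have hder : ∀ z ∈ ball (0 : ℂ) 1, HasDerivAt (fun z => X z * Complex.exp (-Lf z)) 0 z := by
      intro z hz
      have d1 : HasDerivAt X (deriv X z) z :=
        ((hX z hz).differentiableAt (isOpen_ball.mem_nhds hz)).hasDerivAt
      have d2 := (hLd z hz).neg.cexp
      have d3 := d1.mul d2
      have h4 : deriv X z * Complex.exp (-Lf z) +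
          X z * (Complex.exp (-Lf z) * -(deriv X z / X z)) = 0 := by
        have h5 : X z * (Complex.exp (-Lf z) * -(deriv X z / X z)) =
            -(Complex.exp (-Lf z) * (X z * deriv X z / X z)) := by ring
        rw [h5, mul_div_cancel_left₀ _ (h0 z hz)]
        ring
      exact h4 ▸ d3
    intro z hz
    have hc : IsPreconnected (ball (0 : ℂ) 1) := (convex_ball _ _).isPreconnected
    have hcon := (convex_ball (0 : ℂ) 1).is_const_of_fderivWithin_eq_zero (𝕜 := ℂ)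
      (f := fun z => X z * Complex.exp (-Lf z))
      (fun w hw => (hder w hw).differentiableAt.differentiableWithinAt)
      (fun w hw => by
        have h1 := (hder w hw).hasFDerivAt.hasFDerivWithinAt (s := ball (0 : ℂ) 1)
        rw [h1.fderivWithin (isOpen_ball.uniqueDiffWithinAt hw)]
        ext; simp) hz (by simp : (0 : ℂ) ∈ ball (0 : ℂ) 1)
    simp only [hLf, sub_self, zero_add] at hcon
    rw [Complex.exp_neg (Complex.log (X 0)), Complex.exp_log hx0, mul_inv_cancel₀ hx0] at hcon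
    have e1 : X z * Complex.exp (-Lf z) = 1 := hcon
    rw [Complex.exp_neg] at e1
    have e2 := Complex.exp_ne_zero (Lf z)
    field_simp at e1
    exact e1
  set M1 : ℝ := |M| with hM1
  have hM0 : 0 ≤ M1 := abs_nonneg _
  refine ⟨8 * (M1 * 2 + 1) + 8 * ‖Lf 0‖, by positivity, ?_⟩
  intro z hz
  have hz1 : ‖z‖ < 1 := by simpa using hz
  set δ : ℝ := 1 - ‖z‖ with hδ
  have hδ0 : 0 < δ := by linarith
  have hδ1 : δ ≤ 1 := by linarith [norm_nonneg z]
  set sd : ℝ := Real.sqrt δ with hsd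
  have hsd0 : 0 < sd := Real.sqrt_pos.2 hδ0
  have hsd1 : sd ≤ 1 := by rw [hsd]; exact Real.sqrt_le_one.2 hδ1
  have hsq : sd ^ 2 = δ := Real.sq_sqrt hδ0.le
  have hR1 : (1 - δ / 2) < 1 := by linarith
  have hR0 : 0 < 1 - δ / 2 := by linarith
  have hzR : ‖z‖ < 1 - δ / 2 := by linarith
  have hsub : ball (0 : ℂ) (1 - δ / 2) ⊆ ball 0 1 := ball_subset_ball hR1.le
  have hMap : Set.MapsTo Lf (ball 0 (1 - δ / 2)) {w | w.re ≤ M1 * (2 / sd) + 1} := by
    intro w hw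
    have hw1 : ‖w‖ < 1 - δ / 2 := by simpa using hw
    have a1 := hM w (hsub hw)
    rw [hexp w (hsub hw), Complex.norm_exp] at a1
    have a2 : δ / 2 ≤ 1 - ‖w‖ ^ 2 := by nlinarith [norm_nonneg w]
    have a3 : Real.exp (Lf w).re ^ 2 * (δ / 2) ≤ M1 ^ 2 := by
      calc _ ≤ Real.exp (Lf w).re ^ 2 * (1 - ‖w‖ ^ 2) := by gcongr
        _ ≤ M ^ 2 := a1
        _ = M1 ^ 2 := (sq_abs M).symm
    have a4 : (Real.exp (Lf w).re * sd) ^ 2 ≤ (2 * M1) ^ 2 := by
      rw [mul_pow, hsq]; nlinarith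
    have a5 : Real.exp (Lf w).re * sd ≤ 2 * M1 := by
      have := abs_le_of_sq_le_sq' a4 (by positivity)
      exact this.2
    have a6 : (Lf w).re + 1 ≤ Real.exp (Lf w).re := Real.add_one_le_exp _
    have a7 : Real.exp (Lf w).re ≤ M1 * (2 / sd) := by
      rw [mul_div_assoc', le_div_iff₀ hsd0]; linarith
    show (Lf w).re ≤ _
    linarith
  have hb := Complex.borelCaratheodory (M := M1 * (2 / sd) + 1) (by positivity)
    (fun w hw => (hLd w (hsub hw)).differentiableAt.differentiableWithinAt) hMap hR0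
    (by simpa using hzR : z ∈ ball (0 : ℂ) (1 - δ / 2))
  have hRz : 1 - δ / 2 - ‖z‖ = δ / 2 := by rw [hδ]; ring
  rw [hRz] at hb
  have hfin : ‖Lf z‖ ≤ (8 * (M1 * 2 + 1) + 8 * ‖Lf 0‖) / (δ * sd) := by
    have b1 : 2 * (M1 * (2 / sd) + 1) * ‖z‖ / (δ / 2) ≤ 8 * (M1 * 2 + 1) / (δ * sd) := by
      rw [div_le_div_iff₀ (by positivity) (by positivity)]
      have : M1 * (2 / sd) + 1 ≤ (M1 * 2 + 1) / sd := by
        rw [le_div_iff₀ hsd0]
        have : M1 * (2 / sd) * sd = M1 * 2 := by field_simp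
        nlinarith
      calc 2 * (M1 * (2 / sd) + 1) * ‖z‖ * (δ * sd) ≤ 2 * ((M1 * 2 + 1) / sd) * 1 * (δ * sd) := by
            gcongr
        _ = 2 * (M1 * 2 + 1) * δ := by field_simp
        _ ≤ 8 * (M1 * 2 + 1) * (δ / 2) := by nlinarith [mul_nonneg hM0 hδ0.le]
    have b2 : ‖Lf 0‖ * (1 - δ / 2 + ‖z‖) / (δ / 2) ≤ 8 * ‖Lf 0‖ / (δ * sd) := by
      rw [div_le_div_iff₀ (by positivity) (by positivity)]
      have h2 : (1 - δ / 2 + ‖z‖) ≤ 2 := by linarith
      calc ‖Lf 0‖ * (1 - δ / 2 + ‖z‖) * (δ * sd) ≤ ‖Lf 0‖ * 2 * (δ * 1) := by gcongr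
        _ ≤ 8 * ‖Lf 0‖ * (δ / 2) := by nlinarith [mul_nonneg (norm_nonneg (Lf 0)) hδ0.le]
    calc ‖Lf z‖ ≤ _ := hb
      _ ≤ 8 * (M1 * 2 + 1) / (δ * sd) + 8 * ‖Lf 0‖ / (δ * sd) := add_le_add b1 b2
      _ = _ := by ring
  rw [hexp z hz, Complex.norm_exp]
  apply Real.exp_le_exp.2
  have := Complex.abs_re_le_norm (Lf z)
  have := abs_le.1 this
  linarith [this.1]

end Pool.Agent.H174.CC
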