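import Pool.Agent.H174.CC.Lower
import Pool.Agent.H174.CC.Contour

namespace Pool.Agent.H174.CC

open Complex Filter Topology Metric MeasureTheory

variable {H : Type*} [NormedAddCommGroup H] [InnerProductSpace ℂ H] [CompleteSpace H]
  (D : Shift H)

/-- the operator `16 + A / 4` -/
noncomputable def Shift.B (D : Shift H) : H →L[ℂ] H := (16 : ℂ) • 1 + (1 / 4 : ℂ) • D.A

lemma Shift.ev_B {q : ℂ} (h : ‖1 - q‖ < 1) (u : H) :
    D.ev (1 - q) (D.B u) = (16 + I / 4 * q) * D.ev (1 - q) u := by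
  have : D.B u = (16 : ℂ) • u + (1 / 4 : ℂ) • (I • (u - D.T u)) := rfl
  rw [this, map_add, map_smul, map_smul, map_smul, map_sub, D.ev_T h]
  simp only [smul_eq_mul]
  ring

lemma Shift.ev_B_pow {q : ℂ} (h : ‖1 - q‖ < 1) (u : H) (n : ℕ) :
    D.ev (1 - q) ((D.B ^ n) u) = (16 + I / 4 * q) ^ n * D.ev (1 - q) u := by
  induction n with
  | zero => simp
  | succ n ih =>
    rw [pow_succ', ContinuousLinearMap.mul_apply, D.ev_B h, ih]
    ring

lemma normSq_path (ρ : ℝ) : ‖1 - ρ * dir‖ ^ 2 = 1 - 2 * ρ + 5 * ρ ^ 2 := by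
  rw [Complex.sq_norm, Complex.normSq_apply]
  simp [dir]
  ring

lemma path_bound {ρ : ℝ} (h0 : 0 < ρ) (h1 : ρ ≤ 1 / 5) : ‖1 - ρ * dir‖ ≤ 1 - ρ / 2 := by
  have := normSq_path ρ
  apply le_of_sq_le_sq _ (by linarith)
  rw [this]
  nlinarith

lemma path_mem {ρ : ℝ} (h0 : 0 < ρ) (h1 : ρ ≤ 1 / 5) : ‖1 - ρ * dir‖ < 1 := by
  have := path_bound h0 h1
  linarith

lemma norm_exp_path (ρ : ℝ) (h0 : 0 < ρ) :
    ‖Complex.exp (((ρ * dir) ^ 2)⁻¹)‖ = Real.exp (-(3 / 25) * (ρ ^ 2)⁻¹) := by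
  rw [Complex.norm_exp]
  congr 1
  have h1 : ((ρ : ℂ) * dir) ^ 2 = ((ρ ^ 2 : ℝ) : ℂ) * (-3 + 4 * I) := by
    unfold dir
    push_cast
    linear_combination (4 * (ρ : ℂ) ^ 2) * I_sq
  rw [h1, mul_inv, ← Complex.ofReal_inv, Complex.re_ofReal_mul, Complex.inv_re]
  simp [Complex.normSq_apply]
  ring

/-- the weight bound -/
lemma weight_bound (K : ℝ) (hK : 0 ≤ K) : ∃ C : ℝ, ∀ ρ : ℝ, 0 < ρ → ρ ≤ 1 / 5 →
    ∀ d : ℝ, ρ / 2 ≤ d →
    (Real.sqrt ρ)⁻¹ * Real.exp (-(3 / 25) * (ρ ^ 2)⁻¹) *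
      Real.exp (K / (d * Real.sqrt d)) ≤ C := by
  set a : ℝ := 3 * K + 1 with ha
  have ha0 : 0 ≤ a := by positivity
  refine ⟨Real.exp (1 + a * (25 / 3 * a) ^ 3), fun ρ h0 h1 d hd => ?_⟩
  set s : ℝ := Real.sqrt ρ with hs
  have hs0 : 0 < s := Real.sqrt_pos.2 h0
  have hss : s ^ 2 = ρ := Real.sq_sqrt h0.le
  set t : ℝ := s⁻¹ with ht
  have ht0 : 0 < t := inv_pos.2 hs0
  have hd0 : 0 < d := by linarith
  -- K / (d √d) ≤ 3 K t³
  have e1 : K / (d * Real.sqrt d) ≤ 3 * K * t ^ 3 := by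
    have g1 : s ^ 3 / 3 ≤ d * Real.sqrt d := by
      have g2 : 2 / 3 * s ≤ Real.sqrt d := by
        apply Real.le_sqrt_of_sq_le
        nlinarith
      calc s ^ 3 / 3 = (ρ / 2) * (2 / 3 * s) := by rw [← hss]; ring
        _ ≤ d * Real.sqrt d := by gcongr
    rw [div_le_iff₀ (by positivity)]
    have g3 : 1 ≤ 3 * t ^ 3 * (d * Real.sqrt d) := by
      calc (1 : ℝ) = 3 * t ^ 3 * (s ^ 3 / 3) := by
            rw [ht]; field_simp
        _ ≤ _ := by gcongr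
    nlinarith
  have e2 : (ρ ^ 2)⁻¹ = t ^ 4 := by rw [ht, ← hss, inv_pow]; ring
  have e3 : t ≤ Real.exp (1 + t ^ 3) := by
    have : 1 + t ^ 3 + 1 ≤ Real.exp (1 + t ^ 3) := Real.add_one_le_exp _
    nlinarith [sq_nonneg (t - 1), mul_nonneg ht0.le (sq_nonneg (t - 1))]
  have e4 : a * t ^ 3 ≤ 3 / 25 * t ^ 4 + a * (25 / 3 * a) ^ 3 := by
    rcases le_total t (25 / 3 * a) with h | h
    · have : a * t ^ 3 ≤ a * (25 / 3 * a) ^ 3 := by gcongr
      have : 0 ≤ 3 / 25 * t ^ 4 := by positivity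
      linarith
    · have g1 : a ≤ 3 / 25 * t := by linarith
      have g2 : a * t ^ 3 ≤ 3 / 25 * t * t ^ 3 := by gcongr
      have g3 : 0 ≤ a * (25 / 3 * a) ^ 3 := by positivity
      nlinarith
  calc t * Real.exp (-(3 / 25) * (ρ ^ 2)⁻¹) * Real.exp (K / (d * Real.sqrt d))
      ≤ Real.exp (1 + t ^ 3) * Real.exp (-(3 / 25) * t ^ 4) * Real.exp (3 * K * t ^ 3) := by
        rw [e2]
        gcongr
    _ = Real.exp (1 + (a * t ^ 3 - 3 / 25 * t ^ 4)) := by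
        rw [← Real.exp_add, ← Real.exp_add]; congr 1; rw [ha]; ring
    _ ≤ _ := by
        apply Real.exp_le_exp.2
        linarith

/-- the weight -/
noncomputable def wt (X : ℂ → ℂ) (ρ : ℝ) : ℂ :=
  I * Complex.exp (((ρ * dir) ^ 2)⁻¹) * dir / X (1 - ρ * dir)

lemma Shift.exists_bound (x : H) (hx : ∀ z ∈ ball (0 : ℂ) 1, D.ev z x ≠ 0) :
    ∃ C : ℝ, ∀ u : H, ∀ ρ ∈ Set.Ioc (0 : ℝ) (1 / 5),
      ‖D.ev (1 - ρ * dir) u * wt (fun z => D.ev z x) ρ‖ ≤ C * ‖u‖ := by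
  obtain ⟨K, hK0, hK⟩ := lower_bound (fun z => D.ev z x) (D.diff_ev x) hx ‖x‖
    (fun z hz => D.norm_ev_sq (by simpa using hz) x)
  obtain ⟨C, hC⟩ := weight_bound K hK0
  refine ⟨C * 3, fun u ρ hρ => ?_⟩
  have h0 := hρ.1
  have h1 := hρ.2
  have hlt := path_mem h0 h1
  have hb := path_bound h0 h1
  set z : ℂ := 1 - ρ * dir with hz
  have hzm : z ∈ ball (0 : ℂ) 1 := by simpa using hlt
  have hs0 : 0 < Real.sqrt ρ := Real.sqrt_pos.2 h0
  have k1 := hK z hzm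
  have k2 : 0 < ‖D.ev z x‖ := norm_pos_iff.2 (hx z hzm)
  have k3 : ‖D.ev z x‖⁻¹ ≤ Real.exp (K / ((1 - ‖z‖) * Real.sqrt (1 - ‖z‖))) := by
    rw [Real.exp_neg] at k1
    exact (inv_le_comm₀ (Real.exp_pos _) k2).1 k1
  have k4 : ‖D.ev z u‖ ≤ ‖u‖ * (Real.sqrt ρ)⁻¹ := by
    have a1 := D.norm_ev_sq hlt u
    have a2 : ρ ≤ 1 - ‖z‖ ^ 2 := by
      rw [hz, normSq_path]; nlinarith
    have a3 : (‖D.ev z u‖ * Real.sqrt ρ) ^ 2 ≤ ‖u‖ ^ 2 := by
      rw [mul_pow, Real.sq_sqrt h0.le]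
      calc ‖D.ev z u‖ ^ 2 * ρ ≤ ‖D.ev z u‖ ^ 2 * (1 - ‖z‖ ^ 2) := by gcongr
        _ ≤ _ := a1
    have a4 : ‖D.ev z u‖ * Real.sqrt ρ ≤ ‖u‖ := le_of_sq_le_sq a3 (norm_nonneg _)
    rwa [← div_eq_mul_inv, le_div_iff₀ hs0]
  have k5 := hC ρ h0 h1 (1 - ‖z‖) (by linarith)
  have k6 : ‖wt (fun z => D.ev z x) ρ‖ ≤ Real.exp (-(3 / 25) * (ρ ^ 2)⁻¹) * 3 *
      Real.exp (K / ((1 - ‖z‖) * Real.sqrt (1 - ‖z‖))) := by
    unfold wt
    rw [norm_div, norm_mul, norm_mul, Complex.norm_I, one_mul, norm_exp_path ρ h0, div_eq_mul_inv]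
    gcongr
    exact norm_dir
  rw [norm_mul]
  calc ‖D.ev z u‖ * ‖wt (fun z => D.ev z x) ρ‖ ≤ (‖u‖ * (Real.sqrt ρ)⁻¹) *
        (Real.exp (-(3 / 25) * (ρ ^ 2)⁻¹) * 3 *
          Real.exp (K / ((1 - ‖z‖) * Real.sqrt (1 - ‖z‖)))) := by gcongr
    _ = ((Real.sqrt ρ)⁻¹ * Real.exp (-(3 / 25) * (ρ ^ 2)⁻¹) *
          Real.exp (K / ((1 - ‖z‖) * Real.sqrt (1 - ‖z‖)))) * (3 * ‖u‖) := by ring
    _ ≤ C * (3 * ‖u‖) := by gcongr
    _ = _ := by ring

lemma Shift.cont (x : H) (hx : ∀ z ∈ ball (0 : ℂ) 1, D.ev z x ≠ 0) (u : H) :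
    ContinuousOn (fun ρ : ℝ => D.ev (1 - ρ * dir) u * wt (fun z => D.ev z x) ρ)
      (Set.Ioc 0 (1 / 5)) := by
  have hmaps : Set.MapsTo (fun ρ : ℝ => 1 - (ρ : ℂ) * dir) (Set.Ioc 0 (1 / 5)) (ball 0 1) := by
    intro ρ hρ
    simpa using path_mem hρ.1 hρ.2
  have hc : ContinuousOn (fun ρ : ℝ => 1 - (ρ : ℂ) * dir) (Set.Ioc 0 (1 / 5)) := by fun_prop
  apply ContinuousOn.mul
  · exact (D.diff_ev u).continuousOn.comp hc hmaps
  · unfold wt
    apply ContinuousOn.div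
    · apply ContinuousOn.mul _ continuousOn_const
      apply ContinuousOn.mul continuousOn_const
      apply ContinuousOn.cexp
      apply ContinuousOn.inv₀
      · fun_prop
      · intro ρ hρ
        have h1 : (ρ : ℂ) ≠ 0 := by exact_mod_cast hρ.1.ne'
        have h2 : dir ≠ 0 := by
          intro h
          have := congrArg Complex.re h
          simp [dir] at this
        exact pow_ne_zero _ (mul_ne_zero h1 h2)
    · exact (D.diff_ev x).continuousOn.comp hc hmaps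
    · intro ρ hρ
      exact hx _ (hmaps hρ)

lemma Shift.exists_functional (x : H) (hx : ∀ z ∈ ball (0 : ℂ) 1, D.ev z x ≠ 0) :
    ∃ Λ : StrongDual ℂ H, ∀ n : ℕ, Λ ((D.B ^ n) x) = ∫ ρ in (0 : ℝ)..(1 / 5), J n (ρ * dir) * dir := by
  obtain ⟨C, hC⟩ := D.exists_bound x hx
  have hint : ∀ u : H, IntervalIntegrable
      (fun ρ : ℝ => D.ev (1 - ρ * dir) u * wt (fun z => D.ev z x) ρ) volume 0 (1 / 5) := by
    intro u
    rw [intervalIntegrable_iff_integrableOn_Ioc_of_le (by norm_num)]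
    apply Integrable.of_bound ((D.cont x hx u).aestronglyMeasurable measurableSet_Ioc)
      (C * ‖u‖)
    filter_upwards [ae_restrict_mem measurableSet_Ioc] with ρ hρ
    exact hC u ρ hρ
  let Λ0 : H →ₗ[ℂ] ℂ :=
    { toFun := fun u => ∫ ρ in (0 : ℝ)..(1 / 5),
        D.ev (1 - ρ * dir) u * wt (fun z => D.ev z x) ρ
      map_add' := by
        intro u v
        rw [← intervalIntegral.integral_add (hint u) (hint v)]
        congr 1
        funext ρ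
        rw [map_add]; ring
      map_smul' := by
        intro c u
        simp only [map_smul, smul_eq_mul, RingHom.id_apply]
        rw [← intervalIntegral.integral_const_mul]
        congr 1
        funext ρ
        ring }
  refine ⟨Λ0.mkContinuous (C * (1 / 5)) ?_, ?_⟩
  · intro u
    have := intervalIntegral.norm_integral_le_of_norm_le_const (a := (0 : ℝ)) (b := 1 / 5)
      (f := fun ρ : ℝ => D.ev (1 - ρ * dir) u * wt (fun z => D.ev z x) ρ) (C := C * ‖u‖) (by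
        intro ρ hρ
        rw [Set.uIoc_of_le (by norm_num)] at hρ
        exact hC u ρ hρ)
    calc ‖Λ0 u‖ ≤ _ := this
      _ = _ := by norm_num; ring
  · intro n
    show (∫ ρ in (0 : ℝ)..(1 / 5), D.ev (1 - ρ * dir) ((D.B ^ n) x) * wt (fun z => D.ev z x) ρ) = _
    apply intervalIntegral.integral_congr_ae
    apply Filter.Eventually.of_forall
    intro ρ hρ
    rw [Set.uIoc_of_le (by norm_num)] at hρ
    have hlt := path_mem hρ.1 hρ.2
    have h0 : D.ev (1 - ρ * dir) x ≠ 0 := hx _ (by simpa using hlt)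
    rw [D.ev_B_pow hlt]
    unfold wt J
    field_simp

theorem Shift.exists_bounded (x : H) : ∃ f : StrongDual ℂ H, f ≠ 0 ∧ ∃ C : ℝ, ∀ n : ℕ,
    (f ((D.B ^ n) x)).re ≤ C := by
  by_cases hx : ∀ z ∈ ball (0 : ℂ) 1, D.ev z x ≠ 0
  · obtain ⟨Λ, hΛ⟩ := D.exists_functional x hx
    obtain ⟨⟨C, hC⟩, n, hn⟩ := bound_facts
    refine ⟨Λ, ?_, C, fun n => ?_⟩
    · rintro rfl
      have h1 := contour_final n
      rw [← hΛ n] at h1
      simp only [ContinuousLinearMap.zero_apply, Complex.zero_re] at h1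
      linarith
    · rw [hΛ n]
      exact (contour_final n).trans (hC n)
  · push Not at hx
    obtain ⟨z, hz, h0⟩ := hx
    have hz' : ‖z‖ < 1 := by simpa using hz
    refine ⟨D.ev z, ?_, 0, fun n => ?_⟩
    · intro h
      have := D.ev_e hz'
      rw [h] at this
      simp at this
    · have h1 := D.ev_B_pow (q := 1 - z) (by simpa using hz') x n
      rw [sub_sub_cancel, h0, mul_zero] at h1
      rw [h1]; simp

end Pool.Agent.H174.CC
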