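import Mathlib

namespace Pool.Agent.H174.CC

open scoped InnerProductSpace ComplexConjugate
open Complex

/-- A unilateral shift: an isometry `S` with a unit vector `e` orthogonal to the range of `S` and
cyclic for `S`. -/
structure Shift (H : Type*) [NormedAddCommGroup H] [InnerProductSpace ℂ H] where
  S : H →ₗᵢ[ℂ] H
  e : H
  norm_e : ‖e‖ = 1
  orth : ∀ v, ⟪e, S v⟫_ℂ = 0
  cyc : ∀ f : StrongDual ℂ H, (∀ n : ℕ, f ((S.toContinuousLinearMap ^ n) e) = 0) → f = 0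

section

variable {H : Type*} [NormedAddCommGroup H] [InnerProductSpace ℂ H] [CompleteSpace H]
  (D : Shift H)

/-- the shift as a continuous linear map -/
noncomputable def Shift.T (D : Shift H) : H →L[ℂ] H := D.S.toContinuousLinearMap

omit [CompleteSpace H] in
lemma Shift.T_apply (v : H) : D.T v = D.S v := rfl

omit [CompleteSpace H] in
lemma Shift.norm_T_apply (v : H) : ‖D.T v‖ = ‖v‖ := D.S.norm_map v

omit [CompleteSpace H] in
lemma Shift.norm_pow_apply (n : ℕ) (v : H) : ‖(D.T ^ n) v‖ = ‖v‖ := by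
  induction n with
  | zero => simp
  | succ n ih => rw [pow_succ', ContinuousLinearMap.mul_apply, D.norm_T_apply, ih]

omit [CompleteSpace H] in
lemma Shift.norm_pow_e (n : ℕ) : ‖(D.T ^ n) D.e‖ = 1 := by rw [D.norm_pow_apply, D.norm_e]

omit [CompleteSpace H] in
lemma Shift.inner_T (v w : H) : ⟪D.T v, D.T w⟫_ℂ = ⟪v, w⟫_ℂ := D.S.inner_map_map v w

omit [CompleteSpace H] in
lemma Shift.inner_pow (n m : ℕ) : ⟪(D.T ^ n) D.e, (D.T ^ m) D.e⟫_ℂ = if n = m then 1 else 0 := by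
  induction n generalizing m with
  | zero =>
    cases m with
    | zero => simp [inner_self_eq_norm_sq_to_K, D.norm_e]
    | succ m =>
      rw [pow_succ', ContinuousLinearMap.mul_apply, D.T_apply, pow_zero,
        ContinuousLinearMap.one_apply, D.orth]
      simp
  | succ n ih =>
    cases m with
    | zero =>
      rw [pow_succ', ContinuousLinearMap.mul_apply, ← inner_conj_symm]
      have := D.orth ((D.T ^ n) D.e)
      simp only [pow_zero, ContinuousLinearMap.one_apply]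
      rw [D.T_apply, this]; simp
    | succ m =>
      rw [pow_succ', pow_succ', ContinuousLinearMap.mul_apply, ContinuousLinearMap.mul_apply,
        D.inner_T, ih]
      simp

/-- `v(ω) = ∑ ω ^ n S ^ n e` -/
noncomputable def Shift.v (D : Shift H) (ω : ℂ) : H := ∑' n : ℕ, ω ^ n • (D.T ^ n) D.e

lemma Shift.summable_v {ω : ℂ} (h : ‖ω‖ < 1) : Summable fun n : ℕ => ω ^ n • (D.T ^ n) D.e := by
  apply Summable.of_norm
  simp only [norm_smul, norm_pow, D.norm_pow_e, mul_one]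
  exact summable_geometric_of_lt_one (norm_nonneg _) h

lemma Shift.v_eq {ω : ℂ} (h : ‖ω‖ < 1) : D.v ω = D.e + ω • D.T (D.v ω) := by
  have h1 : ω • D.T (D.v ω) = ∑' n : ℕ, ω ^ (n + 1) • (D.T ^ (n + 1)) D.e := by
    unfold Shift.v
    rw [D.T.map_tsum (D.summable_v h), ← tsum_const_smul'' ω]
    congr 1
    funext n
    rw [map_smul, smul_smul, pow_succ', pow_succ', ContinuousLinearMap.mul_apply]
  rw [h1]
  unfold Shift.v
  rw [(D.summable_v h).tsum_eq_zero_add]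
  simp only [pow_zero, one_smul, ContinuousLinearMap.one_apply]

lemma Shift.norm_v {ω : ℂ} (h : ‖ω‖ < 1) : ‖D.v ω‖ ^ 2 * (1 - ‖ω‖ ^ 2) = 1 := by
  have h1 : ‖D.v ω‖ ^ 2 = ‖D.e + ω • D.T (D.v ω)‖ ^ 2 := by rw [← D.v_eq h]
  have h2 : ⟪D.e, ω • D.T (D.v ω)⟫_ℂ = 0 := by
    rw [inner_smul_right, D.T_apply, D.orth, mul_zero]
  have h3 := norm_add_sq_eq_norm_sq_add_norm_sq_of_inner_eq_zero D.e (ω • D.T (D.v ω)) h2
  rw [norm_smul, D.norm_T_apply, D.norm_e] at h3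
  nlinarith

/-- the evaluation at `ζ` -/
noncomputable def Shift.ev (D : Shift H) (ζ : ℂ) : StrongDual ℂ H := innerSL ℂ (D.v (conj ζ))

omit [CompleteSpace H] in
lemma Shift.ev_apply (ζ : ℂ) (h : H) : D.ev ζ h = ⟪D.v (conj ζ), h⟫_ℂ := rfl

lemma Shift.ev_e {ζ : ℂ} (h : ‖ζ‖ < 1) : D.ev ζ D.e = 1 := by
  have h' : ‖conj ζ‖ < 1 := by rwa [RCLike.norm_conj]
  rw [D.ev_apply, D.v_eq h', inner_add_left, inner_smul_left, ← inner_conj_symm (D.T _) D.e,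
    D.T_apply, D.orth]
  simp [inner_self_eq_norm_sq_to_K, D.norm_e]

lemma Shift.ev_T {ζ : ℂ} (h : ‖ζ‖ < 1) (u : H) : D.ev ζ (D.T u) = ζ * D.ev ζ u := by
  have h' : ‖conj ζ‖ < 1 := by rwa [RCLike.norm_conj]
  rw [D.ev_apply, D.ev_apply]
  conv_lhs => rw [D.v_eq h']
  rw [inner_add_left, inner_smul_left, D.inner_T, D.T_apply, D.orth]
  simp

lemma Shift.norm_ev_sq {ζ : ℂ} (h : ‖ζ‖ < 1) (u : H) :
    ‖D.ev ζ u‖ ^ 2 * (1 - ‖ζ‖ ^ 2) ≤ ‖u‖ ^ 2 := by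
  have h' : ‖conj ζ‖ < 1 := by rwa [RCLike.norm_conj]
  have h1 := D.norm_v h'
  rw [RCLike.norm_conj] at h1
  have h2 : ‖D.ev ζ u‖ ≤ ‖D.v (conj ζ)‖ * ‖u‖ := norm_inner_le_norm _ _
  have h3 : 0 ≤ 1 - ‖ζ‖ ^ 2 := by nlinarith [norm_nonneg ζ]
  calc ‖D.ev ζ u‖ ^ 2 * (1 - ‖ζ‖ ^ 2) ≤ (‖D.v (conj ζ)‖ * ‖u‖) ^ 2 * (1 - ‖ζ‖ ^ 2) := by gcongr
    _ = (‖D.v (conj ζ)‖ ^ 2 * (1 - ‖ζ‖ ^ 2)) * ‖u‖ ^ 2 := by ring
    _ = ‖u‖ ^ 2 := by rw [h1, one_mul]

lemma diff_pow_series (a : ℕ → ℂ) (C : ℝ) (ha : ∀ n, ‖a n‖ ≤ C) :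
    DifferentiableOn ℂ (fun z : ℂ => ∑' n : ℕ, z ^ n * a n) (Metric.ball 0 1) := by
  intro z hz
  have hz' : ‖z‖ < 1 := by simpa using hz
  obtain ⟨r, hr1, hr2⟩ := exists_between hz'
  have hr0 : 0 ≤ r := (norm_nonneg z).trans hr1.le
  have : DifferentiableOn ℂ (fun z : ℂ => ∑' n : ℕ, z ^ n * a n) (Metric.ball 0 r) := by
    apply differentiableOn_tsum_of_summable_norm (u := fun n => r ^ n * C)
    · exact (summable_geometric_of_lt_one hr0 hr2).mul_right C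
    · intro n; fun_prop
    · exact Metric.isOpen_ball
    · intro n w hw
      have hw' : ‖w‖ < r := by simpa using hw
      rw [norm_mul, norm_pow]
      have := ha n
      have h0 : 0 ≤ C := (norm_nonneg _).trans this
      gcongr
  exact ((this z (by simpa using hr1)).differentiableAt
    (Metric.isOpen_ball.mem_nhds (by simpa using hr1))).differentiableWithinAt

lemma Shift.ev_tsum {ζ : ℂ} (h : ‖ζ‖ < 1) (u : H) :
    D.ev ζ u = ∑' n : ℕ, ζ ^ n * ⟪(D.T ^ n) D.e, u⟫_ℂ := by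
  have h' : ‖conj ζ‖ < 1 := by rwa [RCLike.norm_conj]
  rw [D.ev_apply, ← inner_conj_symm]
  unfold Shift.v
  have h1 : ⟪u, ∑' n : ℕ, (conj ζ) ^ n • (D.T ^ n) D.e⟫_ℂ =
      ∑' n : ℕ, ⟪u, (conj ζ) ^ n • (D.T ^ n) D.e⟫_ℂ :=
    (innerSL ℂ u).map_tsum (D.summable_v h')
  rw [h1, Complex.conj_tsum]
  congr 1
  funext n
  rw [inner_smul_right, map_mul, inner_conj_symm, map_pow, Complex.conj_conj]

lemma Shift.diff_ev (u : H) : DifferentiableOn ℂ (fun ζ => D.ev ζ u) (Metric.ball 0 1) := by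
  apply (diff_pow_series (fun n => ⟪(D.T ^ n) D.e, u⟫_ℂ) ‖u‖ _).congr
  · intro z hz
    exact D.ev_tsum (by simpa using hz) u
  · intro n
    calc ‖⟪(D.T ^ n) D.e, u⟫_ℂ‖ ≤ ‖(D.T ^ n) D.e‖ * ‖u‖ := norm_inner_le_norm _ _
      _ = ‖u‖ := by rw [D.norm_pow_e, one_mul]

end

end Pool.Agent.H174.CC
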